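import Pool.Agent.H20S3.Def

set_option autoImplicit false

namespace Pool.Agent.H20S3.AVG

open Filter Topology Finset
open Pool.Agent.Y692.QS (Ei w nr)
open Pool.Agent.Y715.T.Rec (cs)
open Pool.Agent.Y715.T.RecG (Pq)
open Pool.Agent.Y699.E (PD mem_PD rec_all)
open Pool.Agent.H20PT.Eis (Bs mz mz_ne nd_of law)
open Q283.TC (NT)
open scoped Classical

theorem S_fin (X : ℕ) : {π : Ei | Pq π ∧ nr π ≤ X}.Finite := by
  refine (Pool.Agent.Y699.E.fin_norm_le X).subset fun π h => ?_
  have h1 := h.2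
  rw [← Pool.Agent.Y699.E.nrm_cast] at h1
  exact_mod_cast h1

theorem NT_eq (X : ℕ) : NT (fun _ => True) X = (S_fin X).toFinset.card := by
  unfold NT
  simp only [and_true]
  rw [Set.ncard_eq_toFinset_card _ (S_fin X)]

theorem NT_atTop : Tendsto (fun X : ℕ => (NT (fun _ => True) X : ℝ)) atTop atTop := by
  refine tendsto_natCast_atTop_atTop.comp ?_
  refine tendsto_atTop_atTop_of_monotone (fun X Y hXY => ?_) fun b => ?_
  · rw [NT_eq, NT_eq]
    refine Finset.card_le_card fun π h => ?_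
    rw [Set.Finite.mem_toFinset] at h ⊢
    exact ⟨h.1, h.2.trans (by exact_mod_cast hXY)⟩
  · by_contra hcon
    push Not at hcon
    have hU : {π : Ei | Pq π}.Finite := by
      by_contra hinf
      obtain ⟨t, ht, htc⟩ := Set.Infinite.exists_subset_card_eq hinf b
      have h1 := hcon (∑ π ∈ t, (nr π).natAbs)
      rw [NT_eq] at h1
      have h2 : t ⊆ (S_fin (∑ π ∈ t, (nr π).natAbs)).toFinset := by
        intro π hπ
        rw [Set.Finite.mem_toFinset]
        refine ⟨ht hπ, ?_⟩
        have h3 : (nr π).natAbs ≤ ∑ π ∈ t, (nr π).natAbs :=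
          Finset.single_le_sum (f := fun π => (nr π).natAbs) (fun _ _ => Nat.zero_le _) hπ
        omega
      have h3 := Finset.card_le_card h2
      omega
    have hP : ∀ q ∈ hU.toFinset, Pq q := fun q hq => (Set.Finite.mem_toFinset hU).1 hq
    have h1 := law Pool.Agent.Y333.CX.t_LAM hU.toFinset hP (fun _ => True) (fun _ => True)
      (fun π hπ hn => absurd ((Set.Finite.mem_toFinset hU).2 hπ) hn)
    have h2 := law Pool.Agent.Y333.CX.t_LAM hU.toFinset hP (fun _ => False) (fun _ => True)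
      (fun π hπ hn => absurd ((Set.Finite.mem_toFinset hU).2 hπ) hn)
    have h3 := tendsto_nhds_unique h1 h2
    have h4 : Nat.card {x : (hU.toFinset → ZMod 3) × ZMod 3 // False} = 0 := by
      rw [Nat.card_eq_zero]
      exact Or.inl ⟨fun x => x.2⟩
    have h5 : 0 < Nat.card {x : (hU.toFinset → ZMod 3) × ZMod 3 // True} :=
      Nat.card_pos_iff.2 ⟨⟨⟨(0, 0), trivial⟩⟩, inferInstance⟩
    rw [h4] at h3
    rw [Nat.cast_zero, zero_div, div_eq_zero_iff] at h3
    rcases h3 with h3 | h3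
    · have : (0 : ℝ) < Nat.card {x : (hU.toFinset → ZMod 3) × ZMod 3 // True} := by exact_mod_cast h5
      linarith
    · have : (0 : ℝ) < 3 ^ (hU.toFinset.card + 1) := by positivity
      linarith

theorem t : S_AVG := by
  intro P hP F g hg
  set σ : Ei → (P → ZMod 3) × ZMod 3 := fun π => (fun q => cs π q, cs π w) with hσ
  have hx : ∀ x : (P → ZMod 3) × ZMod 3, Tendsto (fun X : ℕ =>
      (NT (fun π => σ π = x) X : ℝ) / (NT (fun _ => True) X : ℝ)) atTop (𝓝 (1 / 3 ^ (P.card + 1))) := by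
    intro x
    have h1 := law Pool.Agent.Y333.CX.t_LAM P hP (fun y => y = x) (fun π => σ π = x)
      (fun π _ _ => Iff.rfl)
    have h2 : Nat.card {y : (P → ZMod 3) × ZMod 3 // y = x} = 1 := by
      rw [Nat.card_eq_one_iff_unique]
      exact ⟨⟨fun a b => Subtype.ext (a.2.trans b.2.symm)⟩, ⟨⟨x, rfl⟩⟩⟩
    rw [h2, Nat.cast_one] at h1
    exact h1
  have hsum : Tendsto (fun X : ℕ => ∑ x, F x * ((NT (fun π => σ π = x) X : ℝ) /
      (NT (fun _ => True) X : ℝ))) atTop (𝓝 (∑ x, F x * (1 / 3 ^ (P.card + 1)))) :=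
    tendsto_finsetSum _ fun x _ => (hx x).const_mul _
  set C : ℝ := ∑ π ∈ P, |g π - F (σ π)| with hC
  have herr : Tendsto (fun X : ℕ => (∑ π ∈ (S_fin X).toFinset, (g π - F (σ π))) /
      (NT (fun _ => True) X : ℝ)) atTop (𝓝 0) := by
    refine squeeze_zero_norm (a := fun X : ℕ => C / (NT (fun _ => True) X : ℝ)) (fun X => ?_)
      (tendsto_const_nhds.div_atTop NT_atTop)
    rw [norm_div, Real.norm_eq_abs, Real.norm_eq_abs,
      abs_of_nonneg (Nat.cast_nonneg (NT (fun _ => True) X) : (0 : ℝ) ≤ _)]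
    refine div_le_div_of_nonneg_right ?_ (Nat.cast_nonneg _)
    refine (Finset.abs_sum_le_sum_abs _ _).trans ?_
    have h1 : ∑ π ∈ (S_fin X).toFinset, |g π - F (σ π)| =
        ∑ π ∈ (S_fin X).toFinset.filter (· ∈ P), |g π - F (σ π)| := by
      rw [Finset.sum_filter]
      refine Finset.sum_congr rfl fun π hπ => ?_
      split_ifs with h
      · rfl
      · have h2 := hg π ((Set.Finite.mem_toFinset _).1 hπ).1 h
        rw [h2, sub_self, abs_zero]
    rw [h1]
    exact Finset.sum_le_sum_of_subset_of_nonneg (fun π hπ => (Finset.mem_filter.1 hπ).2)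
      fun _ _ _ => abs_nonneg _
  have h := hsum.add herr
  rw [add_zero, ← Finset.sum_mul, mul_one_div] at h
  refine h.congr fun X => ?_
  rw [finsum_mem_eq_finite_toFinset_sum _ (S_fin X)]
  have e1 : ∑ π ∈ (S_fin X).toFinset, F (σ π) = ∑ x, F x * (NT (fun π => σ π = x) X : ℝ) := by
    rw [← Finset.sum_fiberwise (S_fin X).toFinset σ (fun π => F (σ π))]
    refine Finset.sum_congr rfl fun x _ => ?_
    have e2 : ∑ π ∈ (S_fin X).toFinset.filter (fun π => σ π = x), F (σ π) =
        ∑ π ∈ (S_fin X).toFinset.filter (fun π => σ π = x), F x :=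
      Finset.sum_congr rfl fun π hπ => by rw [(Finset.mem_filter.1 hπ).2]
    rw [e2, Finset.sum_const, nsmul_eq_mul, mul_comm]
    congr 2
    unfold NT
    rw [← Set.ncard_coe_finset]
    congr 1
    ext π
    simp only [Finset.coe_filter, Set.Finite.mem_toFinset, Set.mem_ofPred_eq]
    tauto
  have e3 : ∑ x, F x * ((NT (fun π => σ π = x) X : ℝ) / (NT (fun _ => True) X : ℝ)) =
      (∑ x, F x * (NT (fun π => σ π = x) X : ℝ)) / (NT (fun _ => True) X : ℝ) := by
    rw [Finset.sum_div]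
    exact Finset.sum_congr rfl fun x _ => by rw [mul_div_assoc]
  rw [Finset.sum_sub_distrib, e1, e3, ← add_div]
  congr 1
  ring

end Pool.Agent.H20S3.AVG
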