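import Pool.Agent.H20S3.Def0

/-! Project H20S3, stub AWB (helper17). -/

set_option autoImplicit false

namespace Pool.Agent.H20S3.AWB

open Filter Topology Finset Pool.Agent.H20S3
open scoped Classical

theorem card_ker {ι : Type} [Fintype ι] (M : Matrix ι ι (ZMod 3)) :
    3 ^ cork M = (univ.filter fun x : ι → ZMod 3 => M.mulVec x = 0).card := by
  have h1 : Nat.card (LinearMap.ker M.mulVecLin) = 3 ^ cork M := by
    rw [Module.natCard_eq_pow_finrank (K := ZMod 3), Nat.card_zmod, cork]
  rw [← h1, Nat.card_eq_fintype_card, Fintype.card_subtype]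
  congr 1
  ext x
  simp [LinearMap.mem_ker]

theorem count {ι : Type} [Fintype ι] (W : ι → ι → ZMod 3) (x : ι → ZMod 3) :
    (univ.filter fun g : ι → ZMod 3 => (Mt W g).mulVec x = 0).card ≤
      ∏ p, if x p = 0 then 3 else 1 := by
  let d : ι → ZMod 3 := fun p => -(∑ r ∈ univ.erase p, W p r * x r) / x p
  have h1 : (univ.filter fun g : ι → ZMod 3 => (Mt W g).mulVec x = 0) ⊆
      Fintype.piFinset (fun p => if x p = 0 then (univ : Finset (ZMod 3)) else {d p}) := by
    intro g hg
    rw [Finset.mem_filter] at hg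
    rw [Fintype.mem_piFinset]
    intro p
    by_cases hp : x p = 0
    · rw [if_pos hp]
      exact Finset.mem_univ _
    · rw [if_neg hp, Finset.mem_singleton]
      have h2 := congrFun hg.2 p
      rw [Matrix.mulVec, dotProduct, Pi.zero_apply,
        ← Finset.add_sum_erase univ _ (Finset.mem_univ p)] at h2
      have h3 : ∑ r ∈ univ.erase p, Mt W g p r * x r = ∑ r ∈ univ.erase p, W p r * x r := by
        refine Finset.sum_congr rfl fun r hr => ?_
        have h4 : ¬ p = r := fun h => (Finset.mem_erase.1 hr).1 h.symm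
        simp [Mt, h4]
      have h5 : Mt W g p p = g p := by simp [Mt]
      rw [h3, h5] at h2
      show g p = -(∑ r ∈ univ.erase p, W p r * x r) / x p
      rw [eq_div_iff hp]
      exact eq_neg_of_add_eq_zero_left h2
  refine (Finset.card_le_card h1).trans (le_of_eq ?_)
  rw [Fintype.card_piFinset]
  refine Finset.prod_congr rfl fun p _ => ?_
  by_cases hp : x p = 0
  · rw [if_pos hp, if_pos hp, Finset.card_univ, ZMod.card]
  · rw [if_neg hp, if_neg hp, Finset.card_singleton]

theorem total {ι : Type} [Fintype ι] :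
    ∑ x : ι → ZMod 3, ∏ p, (if x p = 0 then 3 else 1 : ℕ) = 5 ^ Fintype.card ι := by
  have h1 := Finset.prod_univ_sum (R := ℕ) (fun _ : ι => (univ : Finset (ZMod 3)))
    (fun _ a => if a = 0 then 3 else 1)
  rw [Fintype.piFinset_univ] at h1
  rw [← h1]
  have h2 : ∑ a : ZMod 3, (if a = 0 then 3 else 1 : ℕ) = 5 := by decide
  have h3 : ∀ i ∈ (univ : Finset ι), ∑ a : ZMod 3, (if a = 0 then 3 else 1 : ℕ) = 5 := fun _ _ => by
    convert h2
  rw [Finset.prod_congr rfl h3, Finset.prod_const, Finset.card_univ]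

theorem t : S_AWB := by
  intro ι _ W
  unfold Aw
  rw [div_pow, div_le_div_iff_of_pos_right (by positivity)]
  have h1 : ∑ g : ι → ZMod 3, 3 ^ cork (Mt W g) ≤ 5 ^ Fintype.card ι := by
    rw [← total]
    calc ∑ g : ι → ZMod 3, 3 ^ cork (Mt W g)
        = ∑ g : ι → ZMod 3, ∑ x : ι → ZMod 3, if (Mt W g).mulVec x = 0 then 1 else 0 := by
          refine Finset.sum_congr rfl fun g _ => ?_
          rw [card_ker, Finset.card_filter]
      _ = ∑ x : ι → ZMod 3, (univ.filter fun g : ι → ZMod 3 => (Mt W g).mulVec x = 0).card := by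
          rw [Finset.sum_comm]
          refine Finset.sum_congr rfl fun x _ => ?_
          rw [Finset.card_filter]
      _ ≤ _ := Finset.sum_le_sum fun x _ => count W x
  have h2 : ((∑ g : ι → ZMod 3, 3 ^ cork (Mt W g) : ℕ) : ℝ) ≤ ((5 ^ Fintype.card ι : ℕ) : ℝ) := by
    exact_mod_cast h1
  push_cast at h2
  exact h2

end Pool.Agent.H20S3.AWB
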