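import Pool.Agent.H20S3.Def0
import Pool.Agent.H20PT.EisK
import Pool.Agent.R419.KL.Cor

/-!
# Project H20S3: the Selmer groups of the cubic twists by random primes, every base curve:
definitions and statements on the Eisenstein integers
-/

set_option autoImplicit false

namespace Pool.Agent.H20S3

open Filter Topology Finset
open Pool.Agent.Y692.QS (Ei w nr)
open Pool.Agent.Y715.T.Rec (cs)
open Pool.Agent.Y715.T.RecG (Pq)
open Pool.Agent.Y699.E (PD mem_PD)
open Pool.Agent.H20PT.Eis (Bs mz pi' ee' AE)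
open Pool.Agent.XL6 (KerV)
open Q283.TC (NT)
open scoped Classical

/-- the weights between the prime factors of `D` (symmetric by the cubic reciprocity law) -/
noncomputable def Wd (D : Ei) : PD D → PD D → ZMod 3 := fun p r => mz D p * mz D r * cs p r

/-- the part of the diagonal that does not depend on `π` -/
noncomputable def g0 (D : Ei) : PD D → ZMod 3 := fun p => -(∑ r ∈ univ.erase p, Wd D p r)

/-- the diagonal of the reduced Laplacian of `D π^e`; `u p` is the symbol of `π` modulo `p` -/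
noncomputable def gd (D : Ei) (e : ℕ) (u : PD D → ZMod 3) : PD D → ZMod 3 :=
  fun p => g0 D p - mz D p * (e : ZMod 3) * u p

/-- the iterated mean of `G (D π₁^e₁ ⋯ π_k^e_k)`: over `π_k` first, over `π₁` last -/
def IM (G : Ei → ℝ) : List ℕ → Ei → ℝ → Prop
  | [], D, m => m = G D
  | e :: es, D, m => ∃ g : Ei → ℝ, (∀ π, Pq π → ¬ π ∣ D → IM G es (D * π ^ e) (g π)) ∧
      Tendsto (fun X : ℕ => (∑ᶠ π ∈ {π : Ei | Pq π ∧ nr π ≤ X}, g π) /
        (NT (fun _ => True) X : ℝ)) atTop (𝓝 m)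

/-- **SOL** (the kernel of the Laplacian of `D π^e` and the reduced Laplacian). PROOF. `KerV` is the set
of the `v : Option (PD D) → ZMod 3` with `∑_i e_i cs (π_j) (π_i) (v_i - v_j) = 0` for all `j`. Multiply the
row `j` by `e_j ≠ 0`: the weights `w_{ji} = e_j e_i cs π_j π_i` are symmetric for `i ≠ j` (cubic
reciprocity `Pool.Agent.Y699.E.rec_all`, see `ker_iff` in `Pool/Agent/H20PT/Eis1.lean`, whose proof is a
model), so the sum of all rows of `∑_i w_{ji} (v_i - v_j)` is zero and the row of `none` follows from the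
others. With `x_p = v_p - v_none` the row of `some p` is
`∑_{r ≠ p} w_{pr} (x_r - x_p) - w_{p,none} x_p = 0`, that is row `p` of `Mt (Wd D) (gd D e u) x = 0`,
`u p = cs p π`. So `v ↦ (v_none, x)` is a bijection of `KerV` with `ZMod 3 × ker`, and
`ncard = 3 · 3^cork` (`Module.natCard_eq_pow_finrank`). -/
def S_SOL : Prop := ∀ (D : Ei), Bs D → ∀ e : ℕ, (e = 1 ∨ e = 2) → ∀ π : Ei, Pq π → ¬ π ∣ D →
  (KerV (pi' (F := PD D) π) (ee' (mz D) (e : ZMod 3))).ncard =
    3 ^ (cork (Mt (Wd D) (gd D e fun p => cs p π)) + 1)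

/-- **MULT**. PROOF. `D π^e` is again primary and cube-free (compare `cls_mul` in
`Pool/Agent/H20PT/EisK.lean`, and `fac`, `mz_ne` in `Eis2.lean`); its primes are those of `D` and `π`
(`mem_PD`; `Pool.Agent.Y699.E.eq_of_dvd`: primary primes that divide each other are equal), the
multiplicities of the `p ∣ D` are the same and that of `π` is `e`. So with the bijection
`Option (PD D) ≃ PD (D π^e)` (`none ↦ π`) the weights `Wd (D π^e)` outside the diagonal are those of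
`Wo (Wd D) u`, `u p = m_p e cs p π` (`cs π p = cs p π` by `rec_all`), and `Aw` does not depend on the
diagonal of the weights and is invariant under bijections (reindex `g` and the kernel). -/
def S_MULT : Prop := ∀ (D : Ei), Bs D → ∀ e : ℕ, (e = 1 ∨ e = 2) → ∀ π : Ei, Pq π → ¬ π ∣ D →
  Bs (D * π ^ e) ∧ (PD (D * π ^ e)).card = (PD D).card + 1 ∧
  ∀ f : ℕ → ℝ, Aw (Wd (D * π ^ e)) f = Aw (Wo (Wd D) fun p => mz D p * (e : ZMod 3) * cs p π) f

/-- **AVG** (means of functions of the symbols). PROOF. `Pool.Agent.H20PT.Eis.law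
Pool.Agent.Y333.CX.t_LAM P hP Q T hT` with `Q = (· = x)`: for each `x = (u, t)` the primes `π` with the
symbols `x` have the density `1 / 3^(card P + 1)` (`T π := cs π · = u ∧ cs π w = t`, `NT T X / NT True X`).
The set `{π | Pq π ∧ nr π ≤ X}` is finite (`Pool.Agent.Y699.E.fin_norm_le` or `finite_...`), so the finsum is a
finite sum (`finsum_mem_eq_finite_toFinset_sum`), equal to `∑_x F x · NT T_x X` up to the sum over the
`π ∈ P` (finitely many; a bounded error, and `NT True X → ∞`). -/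
def S_AVG : Prop := ∀ P : Finset Ei, (∀ q ∈ P, Pq q) → ∀ (F : (P → ZMod 3) × ZMod 3 → ℝ) (g : Ei → ℝ),
  (∀ π, Pq π → π ∉ P → g π = F (fun q => cs π q, cs π w)) →
  Tendsto (fun X : ℕ => (∑ᶠ π ∈ {π : Ei | Pq π ∧ nr π ≤ X}, g π) / (NT (fun _ => True) X : ℝ)) atTop
    (𝓝 ((∑ x, F x) / 3 ^ (P.card + 1)))

/-- **SUM1**. PROOF. The sum factors: the number of the `t` with `¬ 9 ∣ nr D (1 + 3 t)^e - 1` is `2`
(`Pool.Agent.H20PT.Eis.cls_one`), and `u ↦ gd D e u` is a bijection of `PD D → ZMod 3`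
(`mz D p * e ≠ 0`, `Pool.Agent.H20PT.Eis.mz_ne`), so `∑_u f (cork (Mt (Wd D) (gd D e u))) =
3^card Aw (Wd D) f`. -/
def S_SUM1 : Prop := ∀ (D : Ei), Bs D → ∀ e : ℕ, (e = 1 ∨ e = 2) → ∀ f : ℕ → ℝ,
  ∑ x : (PD D → ZMod 3) × ZMod 3, (if ¬ (9 : ℤ) ∣ nr D * (1 + 3 * (x.2.val : ℤ)) ^ e - 1 then
    f (cork (Mt (Wd D) (gd D e x.1))) else 0) = 2 * 3 ^ (PD D).card * Aw (Wd D) f

/-- **SUM2** (from REC). PROOF. `Wd D` is symmetric (`rec_all` for different primes, trivial on the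
diagonal). `∑_t` gives a factor `3`; `u ↦ (m_p e u_p)` is a bijection (`mz_ne`); then REC. -/
def S_SUM2 : Prop := ∀ (D : Ei), Bs D → ∀ e : ℕ, (e = 1 ∨ e = 2) → ∀ f : ℕ → ℝ,
  ∑ x : (PD D → ZMod 3) × ZMod 3, Aw (Wo (Wd D) fun p => mz D p * (e : ZMod 3) * x.1 p) f =
    3 ^ ((PD D).card + 1) * Aw (Wd D) (TT f)

/-- **LAPE** (the law in terms of the Laplacian `AE`). PROOF. `AE (mz D) (PD D)` is the Laplacian: entry
`(p, r)`, `p ≠ r`, is `m_r cs p r`, the diagonal is `-∑_{s ≠ p} m_s cs p s`. Multiplying the row `p` of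
`AE - diag u` by `m_p ≠ 0` gives `Mt (Wd D) g`, `g p = g0 D p - m_p u p`, without changing the kernel; and
`u ↦ g` is a bijection. (`AE` is the Laplacian of `Pool/Agent/H20PT/Eis1.lean`.) -/
def S_LAPE : Prop := ∀ (D : Ei), Bs D → ∀ f : ℕ → ℝ,
  (∑ u : PD D → ZMod 3, f (cork (Matrix.of (fun p r : PD D => AE (mz D) (PD D) p r) -
    Matrix.diagonal u))) / 3 ^ (PD D).card = Aw (Wd D) f

/-- **MAIN** (from MULT, AVG, SUM1, SUM2). PROOF. Induction on `es` (nonempty). For `es = [e]` take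
`g π = G (D π^e)`; for `π ∤ D` it is `F (fun q => cs π q, cs π w)` with the summand `F` of SUM1
(`Pool.Agent.H20PT.Eis.nine_iff`; `cs π q = cs q π` for `q ∣ D`, by `rec_all`); AVG with `P = PD D`
(`π ∈ PD D` iff `π ∣ D`, `mem_PD`) and SUM1 give the limit
`2 · 3^n Aw (Wd D) f / 3^(n+1) = (2/3) Aw (Wd D) f`. For `es = e :: es'`, `es' ≠ []`, take
`g π = (2/3) Aw (Wd (D π^e)) (TT^[len es' - 1] f)` (induction and MULT: `Bs (D π^e)`), which for `π ∤ D` is the
function `(2/3) ·` (the summand of SUM2 for `TT^[len es' - 1] f`) by MULT; AVG and SUM2 give the limit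
`(2/3) Aw (Wd D) (TT (TT^[len es' - 1] f))`, and `TT ∘ TT^[m] = TT^[m+1]` (`Function.iterate_succ_apply'`). -/
def S_MAIN : Prop := ∀ (f : ℕ → ℝ) (G : Ei → ℝ),
  (∀ D : Ei, Bs D → ∀ e : ℕ, (e = 1 ∨ e = 2) → ∀ π : Ei, Pq π → ¬ π ∣ D →
    G (D * π ^ e) = if ¬ (9 : ℤ) ∣ nr (D * π ^ e) - 1 then
      f (cork (Mt (Wd D) (gd D e fun p => cs p π))) else 0) →
  ∀ es : List ℕ, es ≠ [] → (∀ e ∈ es, e = 1 ∨ e = 2) → ∀ D : Ei, Bs D →
    IM G es D (2 / 3 * Aw (Wd D) (TT^[es.length - 1] f))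

end Pool.Agent.H20S3
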