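import Mathlib

/-!
# Project H20S3: definitions (linear algebra over `F₃` and the Markov chain); Mathlib only
-/

set_option autoImplicit false

namespace Pool.Agent.H20S3

open Filter Topology Finset
open scoped Classical

/-- the dimension of the kernel of a square matrix over `F₃` -/
noncomputable def cork {ι : Type} [Fintype ι] (M : Matrix ι ι (ZMod 3)) : ℕ :=
  Module.finrank (ZMod 3) (LinearMap.ker M.mulVecLin)

/-- the matrix with diagonal `g` and the entries of `W` outside the diagonal -/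
noncomputable def Mt {ι : Type} (W : ι → ι → ZMod 3) (g : ι → ZMod 3) : Matrix ι ι (ZMod 3) :=
  Matrix.of fun p r => if p = r then g p else W p r

/-- one more row and column -/
def border {ι : Type} (M : Matrix ι ι (ZMod 3)) (v : ι → ZMod 3) (c : ZMod 3) :
    Matrix (Option ι) (Option ι) (ZMod 3) :=
  Matrix.of fun p r => match p, r with
    | none, none => c
    | none, some r => v r
    | some p, none => v p
    | some p, some r => M p r

/-- one more vertex, with the weights `u` -/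
def Wo {ι : Type} (W : ι → ι → ZMod 3) (u : ι → ZMod 3) (p r : Option ι) : ZMod 3 :=
  match p, r with
    | none, none => 0
    | none, some r => u r
    | some p, none => u p
    | some p, some r => W p r

/-- the transition operator of the Markov chain of the dimensions of the kernels -/
noncomputable def TT (f : ℕ → ℝ) (s : ℕ) : ℝ :=
  (1 - (1 / 3 : ℝ) ^ s) * f (s - 1) + 2 * (1 / 3 : ℝ) ^ (s + 1) * f s +
    (1 / 3 : ℝ) ^ (s + 1) * f (s + 1)

/-- the mean of `f (dim ker)` over all diagonals -/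
noncomputable def Aw {ι : Type} [Fintype ι] (W : ι → ι → ZMod 3) (f : ℕ → ℝ) : ℝ :=
  (∑ g : ι → ZMod 3, f (cork (Mt W g))) / 3 ^ Fintype.card ι

/-- **LA** (transition of the corank when a random row and column is added to a symmetric matrix).
PROOF. Let `n = card ι`, `N = ker M`, `s = dim N = cork M`, `R = range M`. As `M` is symmetric,
`R ⊆ N^⊥` for the dot product and `|R| = 3^(n-s) = |N^⊥|`, so `R = N^⊥` (rank-nullity; or
`Matrix.rank`, `LinearMap.ker`/`dotProduct` facts). The kernel of `border M v c` is the set of the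
`(x, y)` with `M x + y v = 0`, `v ⬝ x + c y = 0`.
(a) `v ∉ R` (`3^n - 3^(n-s)` vectors, any `c`): then `y = 0`, `x ∈ N`, `v ⬝ x = 0`, and `v ⬝` is not zero
on `N` as `v ∉ N^⊥`; so the kernel has dimension `s - 1`.
(b) `v = M w ∈ R` (`3^(n-s)` vectors): `v ⬝ x = w ⬝ M x = 0` on `N`; `M x + y v = 0` iff
`x = - y w + k`, `k ∈ N`; then `v ⬝ x + c y = y (c - w ⬝ M w)`. If `c = w ⬝ M w` (one `c`) the kernel has
dimension `s + 1`, else (two `c`) it is `N × 0`, dimension `s`.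
So the sum is `3 (3^n - 3^(n-s)) f (s-1) + 3^(n-s) (2 f s + f (s+1)) = 3^(n+1) TT f s`
(for `s = 0` the first term vanishes). -/
def S_LA : Prop := ∀ (ι : Type) [Fintype ι] (M : Matrix ι ι (ZMod 3)), M.IsSymm → ∀ f : ℕ → ℝ,
  ∑ v : ι → ZMod 3, ∑ c : ZMod 3, f (cork (border M v c)) = 3 ^ (Fintype.card ι + 1) * TT f (cork M)

/-- **REC** (from LA). PROOF. `card (Option ι) = card ι + 1`. A diagonal `g'` on `Option ι` is a pair
`(g, c)`, `g = g' ∘ some`, `c = g' none` (`Fintype.sum_equiv` with `Equiv.piOptionEquivProd` or similar), and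
`Mt (Wo W u) g' = border (Mt W g) u c` (cases on `Option`). So
`∑_u Aw (Wo W u) f = 3^(-n-1) ∑_g ∑_u ∑_c f (cork (border (Mt W g) u c)) = ∑_g TT f (cork (Mt W g))` by LA
(`Mt W g` is symmetric), which is `3^n Aw W (TT f)`. -/
def S_REC : Prop := ∀ (ι : Type) [Fintype ι] (W : ι → ι → ZMod 3), (∀ p r, W p r = W r p) →
  ∀ f : ℕ → ℝ, ∑ u : ι → ZMod 3, Aw (Wo W u) f = 3 ^ Fintype.card ι * Aw W (TT f)

/-- **AWB** (the mean number of solutions). PROOF. `3^(cork M)` is the number of the `x` with `M x = 0`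
(`Module.natCard_eq_pow_finrank`). So `3^n Aw W (3^·) = ∑_g ∑_x [Mt W g x = 0] = ∑_x #{g | Mt W g x = 0}`.
For fixed `x` the equation of the row `p` is `g p * x p + ∑_{r ≠ p} W p r * x r = 0`; it determines `g p` if
`x p ≠ 0`, so there are at most `∏_p (if x p = 0 then 3 else 1)` such `g`, and
`∑_x ∏_p (if x p = 0 then 3 else 1) = ∏_p (3 + 1 + 1) = 5^n` (`Finset.prod_univ_sum` / `Fintype.piFinset`). Hence
`Aw W (3^·) ≤ 5^n / 3^n`. -/
def S_AWB : Prop := ∀ (ι : Type) [Fintype ι] (W : ι → ι → ZMod 3),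
  Aw W (fun s => (3 : ℝ) ^ s) ≤ (5 / 3 : ℝ) ^ Fintype.card ι

/-- **MK** (exponential convergence of the Markov chain). PROOF. `c r > 0`, `∑ c = 1`,
`c (r+1) (3^(r+1) - 1) = c r`. Write `T = TT`, `q = 3/5`.
1. Let `f : ℕ → ℝ`, `A ≥ 0`, `|f s - f t| ≤ A (3^s + 3^t)` for all `s ≠ t`. Then
`|T f s - T f t| ≤ (3/5) A (3^s + 3^t)` for `s ≠ t`. Indeed `T f s` is the mean of `f` for the probability
`P_s` with the weights `1 - 3^(-s)`, `2 · 3^(-s-1)`, `3^(-s-1)` at `s - 1`, `s`, `s + 1`. For `{s,t} = {0,1}`: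
`T f 0 - T f 1 = (2/3 f 0 + 1/3 f 1) - (2/3 f 0 + 2/9 f 1 + 1/9 f 2) = (f 1 - f 2)/9`, at most
`A (3 + 9)/9 = (1/3) A (1 + 3)`. Otherwise `3^s + 3^t ≥ 10` and
`|T f s - T f t| ≤ ∑_{i,j} P_s(i) P_t(j) |f i - f j| ≤ A ∑ P_s(i) P_t(j) (3^i + 3^j) = A ((3^s + 3^t)/3 + 8/3)
≤ (3/5) A (3^s + 3^t)`; here `∑_i P_s(i) 3^i = 3^s/3 + 4/3` for all `s` (also `s = 0`).
2. The indicator `f₀` of `r` has `|f₀ s - f₀ t| ≤ 1 ≤ (1/4)(3^s + 3^t)` for `s ≠ t` (as `3^s + 3^t ≥ 4`).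
So `|T^k f₀ s - T^k f₀ t| ≤ (1/4) q^k (3^s + 3^t)` for all `s`, `t`.
3. `∑ c s (T f s) = ∑ c s f s` for bounded `f` (all series converge absolutely): with `b s = c s f s` and
`3^(-s) c s (3^s - 1) = 3^(-s) c (s-1)` one finds
`c s (T f) s = 3^(-s) b (s-1) [s ≥ 1] + 2 · 3^(-s-1) b s + (1 - 3^(-s-1)) b (s+1)`, and the sum of the three
series is `∑ b s (3^(-s-1) + 2 · 3^(-s-1) + 1 - 3^(-s)) = ∑ b s` (shift the index; the term `s = 0` of
`(1 - 3^(-s)) b s` is zero). `|T f| ≤ sup |f|`. So `∑_s c s (T^k f₀) s = c r`.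
4. `∑ c s 3^s = 2`: `c s 3^s = c s + c s (3^s - 1) = c s + c (s - 1)` for `s ≥ 1`, and `c 0` for `s = 0`.
5. So `|T^k f₀ s - c r| = |∑_t c t (T^k f₀ s - T^k f₀ t)| ≤ (1/4) q^k ∑ c t (3^s + 3^t) = (1/4) q^k (3^s + 2)`. -/
def S_MK : Prop := ∀ c : ℕ → ℝ, (∀ r, 0 < c r) → HasSum c 1 →
  (∀ r, c (r + 1) * ((3 : ℝ) ^ (r + 1) - 1) = c r) → ∀ r k s : ℕ,
  |TT^[k] (fun n => if n = r then 1 else 0) s - c r| ≤ 1 / 4 * (3 / 5 : ℝ) ^ k * (3 ^ s + 2)

end Pool.Agent.H20S3
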