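import Pool.Agent.H20S3.TRK

/-!
# Project H20S3: the final statements over `𝓞 K`
-/

set_option autoImplicit false

namespace Pool.Agent.H20S3

open Filter Topology Finset NumberField
open Pool.Agent.Y692.QS (Ei w nr)
open Pool.Agent.Y715.T.Rec (cs)
open Pool.Agent.Y715.T.RecG (Pq)
open Pool.Agent.Y699.E (PD mem_PD)
open Pool.Agent.H20PT.Eis (Bs mz pi' ee' AE Primary primary_j symbol_j mem_divs_j dt_mul pD_mul cls_mul
  dvd_j AK AK_j divs BaseK base_j exists_iso)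
open Pool.Agent.XL6 (KerV SelK)
open Pool.Agent.R419.KF (ClsKC)
open Pool.Agent.R419.KL (Sel3)
open Pool.Agent.Y703.XL (cr)
open Q283.TC (NT)
open scoped Classical

theorem cork_add {ι : Type} [Fintype ι] (M : Matrix ι ι (ZMod 3)) :
    M.rank + cork M = Fintype.card ι := by
  have h := LinearMap.finrank_range_add_finrank_ker M.mulVecLin
  rw [Module.finrank_fintype_fun_eq_card] at h
  exact h

theorem cork_submatrix {ι κ : Type} [Fintype ι] [Fintype κ] (σ : ι ≃ κ) (M : Matrix κ κ (ZMod 3)) :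
    cork (M.submatrix σ σ) = cork M := by
  have h1 := cork_add M
  have h2 := cork_add (M.submatrix σ σ)
  have h3 : (M.submatrix σ σ).rank = M.rank := Matrix.rank_submatrix M σ σ
  rw [h3, Fintype.card_congr σ] at h2
  omega

variable {K : Type} [Field K] [NumberField K] {j : Ei ≃+* 𝓞 K}

/-- the primes correspond -/
noncomputable def sg {D : Ei} (hD : D ≠ 0) : PD D ≃ divs (j D) :=
  Equiv.ofBijective (fun p => ⟨j p, (mem_divs_j hD _).2 ⟨p, p.2, rfl⟩⟩) ⟨by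
    intro a b h
    exact Subtype.ext (j.injective (congrArg Subtype.val h)), by
    rintro ⟨p, hp⟩
    obtain ⟨q, hq, rfl⟩ := (mem_divs_j hD _).1 hp
    exact ⟨⟨q, hq⟩, rfl⟩⟩

/-- the mean over all `u` of `f (dim ker (lap - diag u))` -/
noncomputable def oneK (ω D : 𝓞 K) (f : ℕ → ℝ) : ℝ :=
  (∑ u : divs D → ZMod 3, f (cork (Matrix.of (fun p r : divs D => AK ω D p r) -
    Matrix.diagonal u))) / 3 ^ (divs D).card

theorem card_divs {D : Ei} (hD : D ≠ 0) : (divs (j D)).card = (PD D).card := by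
  have h := Fintype.card_congr (sg (j := j) hD)
  rw [Fintype.card_coe, Fintype.card_coe] at h
  exact h.symm

theorem one_j {ω : 𝓞 K} (h : S_LAPE) (hj : ∀ z : Ei, Algebra.norm ℤ (j z) = nr z) (hw : j w = ω)
    {D : Ei} (hD : Bs D) (f : ℕ → ℝ) : oneK ω (j D) f = Aw (Wd D) f := by
  rw [← h D hD f]
  unfold oneK
  rw [card_divs hD.ne]
  congr 1
  refine (Fintype.sum_equiv (Equiv.arrowCongr (sg (j := j) hD.ne) (Equiv.refl (ZMod 3))) _ _
    fun u => ?_).symm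
  congr 1
  rw [← cork_submatrix (sg (j := j) hD.ne)]
  congr 1
  ext p r
  rw [Matrix.submatrix_apply, Matrix.sub_apply, Matrix.sub_apply, Matrix.of_apply, Matrix.of_apply]
  have h1 : AK ω (j D) (sg (j := j) hD.ne p) (sg (j := j) hD.ne r) = AE (mz D) (PD D) p r :=
    AK_j hj hw hD.ne p r
  rw [h1]
  congr 1
  rw [Matrix.diagonal_apply, Matrix.diagonal_apply]
  by_cases hpr : p = r
  · rw [if_pos hpr, if_pos (by rw [hpr])]
    simp [Equiv.arrowCongr]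
  · rw [if_neg hpr, if_neg (fun e => hpr ((sg (j := j) hD.ne).injective e))]

/-- the `r` with `#Sel = 3^(r+1)` -/
noncomputable def rk (D : 𝓞 K) : ℕ := Nat.log 3 (SelK (D : K)).ncard - 1

theorem fin1 [IsCyclotomicExtension {3} ℚ K] {ω : 𝓞 K} (hω : ω ^ 2 + ω + 1 = 0) (hM : S_MAIN)
    (hL : S_LAPE) (hS : S_SOL) (D : 𝓞 K) (hD : BaseK D) (es : List ℕ) (hes : es ≠ [])
    (he : ∀ e ∈ es, e = 1 ∨ e = 2) (f : ℕ → ℝ) :
    IMK (fun D' : 𝓞 K => if ¬ (9 : ℤ) ∣ Algebra.norm ℤ D' - 1 then f (rk D') else 0) es D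
      (2 / 3 * oneK ω D (TT^[es.length - 1] f)) := by
  obtain ⟨j, hj, hw⟩ := exists_iso hω
  obtain ⟨z, rfl⟩ := j.surjective D
  have hz : Bs z := base_j.1 hD
  rw [one_j hL hj hw hz]
  refine trk hj _ es z _ (hM f _ ?_ es hes he z hz)
  intro D hD e he π hπ hd
  simp only [hj]
  by_cases h9 : ¬ (9 : ℤ) ∣ nr (D * π ^ e) - 1
  · rw [if_pos h9, if_pos h9]
    unfold rk
    rw [sel_eq hS hj hD he hπ hd h9, Nat.log_pow (by norm_num), Nat.add_sub_cancel]
  · rw [if_neg h9, if_neg h9]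

theorem fin2 [IsCyclotomicExtension {3} ℚ K] {ω : 𝓞 K} (hω : ω ^ 2 + ω + 1 = 0) (hM : S_MAIN)
    (hL : S_LAPE) (hS : S_SOL) (D : 𝓞 K) (hD : BaseK D) (es : List ℕ) (hes : es ≠ [])
    (he : ∀ e ∈ es, e = 1 ∨ e = 2) :
    IMK (fun D' : 𝓞 K => if ¬ (9 : ℤ) ∣ Algebra.norm ℤ D' - 1 ∧ Nat.card (Sel3 (D' : K)) = 3
        then 1 else 0) es D
      (2 / 3 * oneK ω D (TT^[es.length - 1] fun n => if n = 0 then 1 else 0)) := by
  obtain ⟨j, hj, hw⟩ := exists_iso hω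
  obtain ⟨z, rfl⟩ := j.surjective D
  have hz : Bs z := base_j.1 hD
  rw [one_j hL hj hw hz]
  refine trk hj _ es z _ (hM _ _ ?_ es hes he z hz)
  intro D hD e he π hπ hd
  simp only [hj]
  by_cases h9 : ¬ (9 : ℤ) ∣ nr (D * π ^ e) - 1
  · have h1 := sel3_iff hω (cls_mul hj hD he hπ hd h9)
    rw [sel_eq hS hj hD he hπ hd h9] at h1
    rw [if_pos h9]
    by_cases h2 : Nat.card (Sel3 (j (D * π ^ e) : K)) = 3
    · rw [if_pos ⟨h9, h2⟩]
      have h3 := Nat.pow_right_injective (show 2 ≤ 3 by norm_num) (h1.1 h2)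
      rw [if_pos (by omega)]
    · rw [if_neg (fun h => h2 h.2)]
      rw [if_neg]
      intro h3
      apply h2
      rw [h1, h3]
  · rw [if_neg h9, if_neg (fun h => h9 h.1)]

theorem cr_rec (r : ℕ) : cr (r + 1) * ((3 : ℝ) ^ (r + 1) - 1) = cr r := by
  unfold cr
  rw [Finset.prod_range_succ]
  have h1 : (1 : ℝ) < 3 ^ (r + 1) := one_lt_pow₀ (by norm_num) (by omega)
  have h2 : ∏ i ∈ range r, ((3 : ℝ) ^ (i + 1) - 1) ≠ 0 := by
    refine Finset.prod_ne_zero_iff.2 fun i _ => ?_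
    have : (1 : ℝ) < 3 ^ (i + 1) := one_lt_pow₀ (by norm_num) (by omega)
    linarith
  have h3 : (3 : ℝ) ^ (r + 1) - 1 ≠ 0 := by linarith
  field_simp

/-- linearity and monotonicity of the mean -/
theorem Aw_le {ι : Type} [Fintype ι] (W : ι → ι → ZMod 3) {f : ℕ → ℝ} {a b c : ℝ}
    (h : ∀ s, |f s - c| ≤ a * (3 ^ s + b)) :
    |Aw W f - c| ≤ a * (Aw W (fun s => (3 : ℝ) ^ s) + b) := by
  have hc : ((Finset.univ : Finset (ι → ZMod 3)).card : ℝ) = 3 ^ Fintype.card ι := by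
    rw [Finset.card_univ, Fintype.card_fun, ZMod.card]
    push_cast
    rfl
  have hp : (0 : ℝ) < 3 ^ Fintype.card ι := by positivity
  have e1 : Aw W f - c = (∑ g : ι → ZMod 3, (f (cork (Mt W g)) - c)) / 3 ^ Fintype.card ι := by
    unfold Aw
    rw [Finset.sum_sub_distrib, Finset.sum_const, nsmul_eq_mul, hc]
    field_simp
  have e2 : a * (Aw W (fun s => (3 : ℝ) ^ s) + b) =
      (∑ g : ι → ZMod 3, a * (3 ^ (cork (Mt W g)) + b)) / 3 ^ Fintype.card ι := by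
    unfold Aw
    rw [← Finset.mul_sum, Finset.sum_add_distrib, Finset.sum_const, nsmul_eq_mul, hc]
    field_simp
  rw [e1, e2, abs_div, abs_of_pos hp]
  refine div_le_div_of_nonneg_right ?_ hp.le
  exact (Finset.abs_sum_le_sum_abs _ _).trans (Finset.sum_le_sum fun g _ => h _)

theorem Aw_lin {ι : Type} [Fintype ι] (W : ι → ι → ZMod 3) (f : ℕ → ℝ) (a b : ℝ) :
    Aw W (fun s => a + b * f s) = a + b * Aw W f := by
  have hc : ((Finset.univ : Finset (ι → ZMod 3)).card : ℝ) = 3 ^ Fintype.card ι := by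
    rw [Finset.card_univ, Fintype.card_fun, ZMod.card]
    push_cast
    rfl
  have hp : (0 : ℝ) < 3 ^ Fintype.card ι := by positivity
  unfold Aw
  rw [Finset.sum_add_distrib, Finset.sum_const, nsmul_eq_mul, hc, ← Finset.mul_sum]
  field_simp

theorem TT_pow (k s : ℕ) : TT^[k] (fun n => (3 : ℝ) ^ n) s = 2 + (3 ^ s - 2) / 3 ^ k := by
  induction k generalizing s with
  | zero => simp
  | succ k ih =>
    rw [Function.iterate_succ_apply']
    change (1 - (1 / 3 : ℝ) ^ s) * TT^[k] (fun n => (3 : ℝ) ^ n) (s - 1) +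
      2 * (1 / 3 : ℝ) ^ (s + 1) * TT^[k] (fun n => (3 : ℝ) ^ n) s +
      (1 / 3 : ℝ) ^ (s + 1) * TT^[k] (fun n => (3 : ℝ) ^ n) (s + 1) = _
    rw [ih, ih, ih]
    rcases s with _ | s
    · field_simp
      ring
    · rw [Nat.add_sub_cancel]
      have h1 : (1 / 3 : ℝ) ^ (s + 1) = 1 / (3 * 3 ^ s) := by rw [one_div_pow, pow_succ, mul_comm]
      have h2 : (1 / 3 : ℝ) ^ (s + 1 + 1) = 1 / (9 * 3 ^ s) := by
        rw [one_div_pow, pow_succ, pow_succ]; ring_nf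
      rw [h1, h2, pow_succ (3 : ℝ) k, pow_succ (3 : ℝ) (s + 1), pow_succ (3 : ℝ) s]
      have h3 : (3 : ℝ) ^ s ≠ 0 := by positivity
      have h4 : (3 : ℝ) ^ k ≠ 0 := by positivity
      field_simp
      ring

/-- the law converges exponentially -/
theorem fin3 [IsCyclotomicExtension {3} ℚ K] {ω : 𝓞 K} (hω : ω ^ 2 + ω + 1 = 0) (hL : S_LAPE)
    (hK : S_MK) (hA : S_AWB) (D : 𝓞 K) (hD : BaseK D) (r k : ℕ) :
    |oneK ω D (TT^[k] fun n => if n = r then 1 else 0) - cr r| ≤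
      3 / 4 * (3 / 5 : ℝ) ^ k * (5 / 3) ^ (divs D).card := by
  obtain ⟨j, hj, hw⟩ := exists_iso hω
  obtain ⟨z, rfl⟩ := j.surjective D
  have hz : Bs z := base_j.1 hD
  rw [one_j hL hj hw hz, card_divs hz.ne]
  have h1 := Aw_le (Wd z) (fun s => hK cr Pool.Agent.R419.KL.prob_facts.1
    Pool.Agent.R419.KL.prob_facts.2.2.2 cr_rec r k s)
  refine h1.trans ?_
  have h2 := hA (PD z) (Wd z)
  rw [Fintype.card_coe] at h2
  have h3 : (1 : ℝ) ≤ (5 / 3) ^ (PD z).card := one_le_pow₀ (by norm_num)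
  have h4 : (0 : ℝ) < (3 / 5) ^ k := by positivity
  nlinarith

theorem oneK_pow [IsCyclotomicExtension {3} ℚ K] {ω : 𝓞 K} (hω : ω ^ 2 + ω + 1 = 0) (hL : S_LAPE)
    (hA : S_AWB) (D : 𝓞 K) (hD : BaseK D) (k : ℕ) :
    oneK ω D (TT^[k] fun n => (3 : ℝ) ^ n) =
      2 + (oneK ω D (fun n => (3 : ℝ) ^ n) - 2) / 3 ^ k ∧
    oneK ω D (fun n => (3 : ℝ) ^ n) ≤ (5 / 3) ^ (divs D).card := by
  obtain ⟨j, hj, hw⟩ := exists_iso hω
  obtain ⟨z, rfl⟩ := j.surjective D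
  have hz : Bs z := base_j.1 hD
  rw [one_j hL hj hw hz, one_j hL hj hw hz, card_divs hz.ne]
  have h2 := hA (PD z) (Wd z)
  rw [Fintype.card_coe] at h2
  refine ⟨?_, h2⟩
  have e : (TT^[k] fun n => (3 : ℝ) ^ n) = fun s => (2 - 2 / 3 ^ k) + (1 / 3 ^ k) * 3 ^ s := by
    funext s
    rw [TT_pow k s]
    ring
  rw [e, Aw_lin]
  ring

end Pool.Agent.H20S3
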