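import Pool.Agent.H20S3.Def0

/-!
# Project H20S3, stub LA: transition of the corank
-/

set_option autoImplicit false

namespace Pool.Agent.H20S3.LA

open Finset
open scoped Classical

local instance fact3 : Fact (Nat.Prime 3) := ⟨by norm_num⟩

/-- the linear bijection `(x, y) ↦ (x - y w, y)` -/
def ex {ι : Type} (w : ι → ZMod 3) : ((ι → ZMod 3) × ZMod 3) →ₗ[ZMod 3] (Option ι → ZMod 3) where
  toFun p := fun o => match o with
    | none => p.2
    | some i => p.1 i - p.2 * w i
  map_add' p p' := by
    funext o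
    cases o with
    | none => simp
    | some i => simp; ring
  map_smul' a p := by
    funext o
    cases o with
    | none => simp
    | some i => simp; ring

/-- the scalar product with `v` -/
def dot {ι : Type} [Fintype ι] (v : ι → ZMod 3) : (ι → ZMod 3) →ₗ[ZMod 3] ZMod 3 where
  toFun x := ∑ i, v i * x i
  map_add' x y := by
    simp only [Pi.add_apply, mul_add, Finset.sum_add_distrib]
  map_smul' a x := by
    simp only [Pi.smul_apply, smul_eq_mul, RingHom.id_apply, Finset.mul_sum]
    exact Finset.sum_congr rfl fun i _ => by ring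

theorem mem_ker {ι : Type} [Fintype ι] (M : Matrix ι ι (ZMod 3)) (x : ι → ZMod 3) :
    x ∈ LinearMap.ker M.mulVecLin ↔ ∀ i, ∑ j, M i j * x j = 0 := by
  rw [LinearMap.mem_ker, Matrix.mulVecLin_apply, funext_iff]
  rfl

theorem mem_ker_border {ι : Type} [Fintype ι] (M : Matrix ι ι (ZMod 3)) (v : ι → ZMod 3)
    (c : ZMod 3) (z : Option ι → ZMod 3) :
    z ∈ LinearMap.ker (border M v c).mulVecLin ↔
      (∀ i, v i * z none + ∑ j, M i j * z (some j) = 0) ∧
        c * z none + ∑ j, v j * z (some j) = 0 := by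
  rw [mem_ker]
  constructor
  · intro h
    refine ⟨fun i => ?_, ?_⟩
    · have := h (some i)
      rwa [Fintype.sum_option] at this
    · have := h none
      rwa [Fintype.sum_option] at this
  · rintro ⟨h1, h2⟩ o
    cases o with
    | none => rw [Fintype.sum_option]; exact h2
    | some i => rw [Fintype.sum_option]; exact h1 i

theorem ex_inj {ι : Type} (w : ι → ZMod 3) : Function.Injective (ex w) := by
  rintro ⟨x, y⟩ ⟨x', y'⟩ h
  have h0 : y = y' := congrFun h none
  subst h0
  have h1 : x = x' := by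
    funext i
    have := congrFun h (some i)
    simpa [ex] using this
  rw [h1]

theorem cork_of {ι V : Type} [Fintype ι] [AddCommGroup V] [Module (ZMod 3) V]
    (B : Matrix ι ι (ZMod 3))
    (F : V →ₗ[ZMod 3] (ι → ZMod 3)) (hF : Function.Injective F)
    (hr : LinearMap.range F = LinearMap.ker B.mulVecLin) : cork B = Module.finrank (ZMod 3) V := by
  unfold cork
  rw [← hr]
  exact LinearMap.finrank_range_of_inj hF

/-- symmetric matrices: the range is the orthogonal of the kernel -/
theorem range_of_orth {ι : Type} [Fintype ι] (M : Matrix ι ι (ZMod 3)) (hM : M.IsSymm)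
    (v : ι → ZMod 3) (h : ∀ x ∈ LinearMap.ker M.mulVecLin, dot v x = 0) :
    v ∈ LinearMap.range M.mulVecLin := by
  have h1 : (dot v : Module.Dual (ZMod 3) (ι → ZMod 3)) ∈
      (LinearMap.ker M.mulVecLin).dualAnnihilator := by
    rw [Submodule.mem_dualAnnihilator]
    exact h
  rw [← LinearMap.range_dualMap_eq_dualAnnihilator_ker] at h1
  obtain ⟨g, hg⟩ := h1
  refine ⟨fun i => g (Pi.single i 1), ?_⟩
  have hg2 : ∀ y : ι → ZMod 3, g y = ∑ i, y i * g (Pi.single i 1) := by
    intro y
    conv_lhs => rw [← Finset.univ_sum_single y]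
    rw [map_sum]
    refine Finset.sum_congr rfl fun i _ => ?_
    have : (Pi.single i (y i) : ι → ZMod 3) = y i • Pi.single i 1 := by
      rw [← Pi.single_smul, smul_eq_mul, mul_one]
    rw [this, map_smul, smul_eq_mul]
  funext j
  have h2 := LinearMap.congr_fun hg (Pi.single j 1)
  rw [LinearMap.dualMap_apply, hg2] at h2
  have h3 : dot v (Pi.single j 1) = v j := by
    show ∑ i, v i * (Pi.single j 1 : ι → ZMod 3) i = v j
    rw [Finset.sum_eq_single j]
    · simp
    · intro b _ hb
      rw [Pi.single_eq_of_ne hb]; ring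
    · intro hj; exact absurd (mem_univ _) hj
  rw [h3] at h2
  rw [← h2, Matrix.mulVecLin_apply]
  show ∑ i, M j i * g (Pi.single i 1) = _
  refine Finset.sum_congr rfl fun i _ => ?_
  congr 1
  rw [Matrix.mulVecLin_apply, Matrix.mulVec_single_one]
  show M j i = M i j
  exact hM.apply i j

/-- case (a) -/
theorem caseA {ι : Type} [Fintype ι] (M : Matrix ι ι (ZMod 3)) (hM : M.IsSymm)
    (v : ι → ZMod 3) (c : ZMod 3) (hv : v ∉ LinearMap.range M.mulVecLin) :
    cork (border M v c) + 1 = cork M := by
  set N := LinearMap.ker M.mulVecLin with hN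
  have hl : (dot v).comp N.subtype ≠ 0 := by
    intro h0
    refine hv (range_of_orth M hM v fun x hx => ?_)
    exact LinearMap.congr_fun h0 ⟨x, hx⟩
  have hd := Module.Dual.finrank_ker_add_one_of_ne_zero hl
  have hy : ∀ z : Option ι → ZMod 3, z ∈ LinearMap.ker (border M v c).mulVecLin → z none = 0 := by
    intro z hz
    rw [mem_ker_border] at hz
    by_contra h0
    refine hv ⟨fun i => -(z none)⁻¹ * z (some i), ?_⟩
    funext i
    rw [Matrix.mulVecLin_apply]
    show ∑ j, M i j * (-(z none)⁻¹ * z (some j)) = v i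
    have h1 := hz.1 i
    have h2 : ∑ j, M i j * (-(z none)⁻¹ * z (some j)) =
        -(z none)⁻¹ * ∑ j, M i j * z (some j) := by
      rw [Finset.mul_sum]
      exact Finset.sum_congr rfl fun j _ => by ring
    have h3 : ∑ j, M i j * z (some j) = - (v i * z none) := by
      linear_combination h1
    rw [h2, h3]
    field_simp
  have key : cork (border M v c) =
      Module.finrank (ZMod 3) (LinearMap.ker ((dot v).comp N.subtype)) := by
    refine cork_of (border M v c)
      ((ex 0).comp ((LinearMap.inl (ZMod 3) (ι → ZMod 3) (ZMod 3)).comp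
        (N.subtype.comp (LinearMap.ker ((dot v).comp N.subtype)).subtype))) ?_ ?_
    · intro a b hab
      have h1 := ex_inj _ hab
      have h2 := LinearMap.inl_injective h1
      exact Subtype.ext (Subtype.ext h2)
    · ext z
      constructor
      · rintro ⟨⟨⟨x, hx⟩, hx2⟩, rfl⟩
        rw [mem_ker_border]
        have hx' := (mem_ker M x).1 hx
        have hx3 : ∑ j, v j * x j = 0 := hx2
        refine ⟨fun i => ?_, ?_⟩
        · show v i * 0 + ∑ j, M i j * (x j - 0 * 0) = 0
          simpa using hx' i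
        · show c * 0 + ∑ j, v j * (x j - 0 * 0) = 0
          simpa using hx3
      · intro hz
        have h0 := hy z hz
        rw [mem_ker_border] at hz
        rw [h0] at hz
        have hx : (fun i => z (some i)) ∈ N := by
          rw [hN, mem_ker]
          intro i
          have := hz.1 i
          simpa using this
        have hx2 : (⟨_, hx⟩ : N) ∈ LinearMap.ker ((dot v).comp N.subtype) := by
          rw [LinearMap.mem_ker]
          show ∑ j, v j * z (some j) = 0
          have := hz.2
          simpa using this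
        refine ⟨⟨⟨_, hx⟩, hx2⟩, ?_⟩
        funext o
        cases o with
        | none => exact h0.symm
        | some i =>
          show z (some i) - 0 * 0 = z (some i)
          ring
  rw [key, hd]
  rfl

theorem symm_dot {ι : Type} [Fintype ι] (M : Matrix ι ι (ZMod 3)) (hM : M.IsSymm)
    (w x : ι → ZMod 3) :
    ∑ j, (∑ i, M j i * w i) * x j = ∑ j, w j * ∑ i, M j i * x i := by
  simp only [Finset.sum_mul, Finset.mul_sum]
  rw [Finset.sum_comm]
  refine Finset.sum_congr rfl fun j _ => Finset.sum_congr rfl fun i _ => ?_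
  have : M i j = M j i := hM.apply j i
  rw [this]; ring

/-- case (b), the basic equivalence -/
theorem caseB {ι : Type} [Fintype ι] (M : Matrix ι ι (ZMod 3)) (hM : M.IsSymm)
    (w : ι → ZMod 3) (c : ZMod 3) (x : ι → ZMod 3) (y : ZMod 3) :
    ex w (x, y) ∈ LinearMap.ker (border M (M.mulVecLin w) c).mulVecLin ↔
      x ∈ LinearMap.ker M.mulVecLin ∧ y * (c - ∑ j, w j * M.mulVecLin w j) = 0 := by
  rw [mem_ker_border, mem_ker]
  have e1 : ∀ i, M.mulVecLin w i * (ex w (x, y)) none + ∑ j, M i j * (ex w (x, y)) (some j) =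
      ∑ j, M i j * x j := by
    intro i
    show (∑ j, M i j * w j) * y + ∑ j, M i j * (x j - y * w j) = ∑ j, M i j * x j
    rw [Finset.sum_mul, ← Finset.sum_add_distrib]
    exact Finset.sum_congr rfl fun j _ => by ring
  have e2 : c * (ex w (x, y)) none + ∑ j, M.mulVecLin w j * (ex w (x, y)) (some j) =
      y * (c - ∑ j, w j * M.mulVecLin w j) + ∑ j, w j * ∑ i, M j i * x i := by
    show c * y + ∑ j, (∑ i, M j i * w i) * (x j - y * w j) =
      y * (c - ∑ j, w j * ∑ i, M j i * w i) + ∑ j, w j * ∑ i, M j i * x i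
    rw [← symm_dot M hM w x, mul_sub, Finset.mul_sum]
    have : ∑ j, (∑ i, M j i * w i) * (x j - y * w j) =
        ∑ j, (∑ i, M j i * w i) * x j - ∑ j, y * (w j * ∑ i, M j i * w i) := by
      rw [← Finset.sum_sub_distrib]
      exact Finset.sum_congr rfl fun j _ => by ring
    rw [this]
    ring
  constructor
  · rintro ⟨h1, h2⟩
    have h1' : ∀ i, ∑ j, M i j * x j = 0 := fun i => by rw [← e1 i]; exact h1 i
    refine ⟨h1', ?_⟩
    rw [e2] at h2
    have h3 : ∑ j, w j * ∑ i, M j i * x i = 0 :=
      Finset.sum_eq_zero fun j _ => by rw [h1' j, mul_zero]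
    rwa [h3, add_zero] at h2
  · rintro ⟨h1, h2⟩
    refine ⟨fun i => by rw [e1 i]; exact h1 i, ?_⟩
    rw [e2, h2, zero_add]
    exact Finset.sum_eq_zero fun j _ => by rw [h1 j, mul_zero]

theorem ex_surj {ι : Type} (w : ι → ZMod 3) (z : Option ι → ZMod 3) :
    ∃ x y, ex w (x, y) = z := by
  refine ⟨fun i => z (some i) + z none * w i, z none, ?_⟩
  funext o
  cases o with
  | none => rfl
  | some i =>
    show z (some i) + z none * w i - z none * w i = z (some i)
    ring

theorem caseB1 {ι : Type} [Fintype ι] (M : Matrix ι ι (ZMod 3)) (hM : M.IsSymm)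
    (w : ι → ZMod 3) (c : ZMod 3) (hc : c ≠ ∑ j, w j * M.mulVecLin w j) :
    cork (border M (M.mulVecLin w) c) = cork M := by
  refine cork_of _ ((ex w).comp ((LinearMap.inl (ZMod 3) (ι → ZMod 3) (ZMod 3)).comp
        (LinearMap.ker M.mulVecLin).subtype)) ?_ ?_
  · intro a b hab
    have h1 := ex_inj _ hab
    have h2 := LinearMap.inl_injective h1
    exact Subtype.ext h2
  · ext z
    constructor
    · rintro ⟨⟨x, hx⟩, rfl⟩
      show ex w (x, 0) ∈ _
      rw [caseB M hM]
      exact ⟨hx, by rw [zero_mul]⟩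
    · intro hz
      obtain ⟨x, y, rfl⟩ := ex_surj w z
      rw [caseB M hM] at hz
      have hy : y = 0 := by
        rcases mul_eq_zero.1 hz.2 with h | h
        · exact h
        · exact absurd (sub_eq_zero.1 h) hc
      subst hy
      exact ⟨⟨x, hz.1⟩, rfl⟩

theorem caseB2 {ι : Type} [Fintype ι] (M : Matrix ι ι (ZMod 3)) (hM : M.IsSymm)
    (w : ι → ZMod 3) (c : ZMod 3) (hc : c = ∑ j, w j * M.mulVecLin w j) :
    cork (border M (M.mulVecLin w) c) = cork M + 1 := by
  have h := cork_of (border M (M.mulVecLin w) c) ((ex w).comp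
    (LinearMap.prodMap (LinearMap.ker M.mulVecLin).subtype
      (LinearMap.id : ZMod 3 →ₗ[ZMod 3] ZMod 3))) ?_ ?_
  · rw [h, Module.finrank_prod, Module.finrank_self]
    rfl
  · intro a b hab
    have h1 := ex_inj _ hab
    have h2 := congrArg Prod.fst h1
    have h3 := congrArg Prod.snd h1
    exact Prod.ext (Subtype.ext h2) h3
  · ext z
    constructor
    · rintro ⟨⟨⟨x, hx⟩, y⟩, rfl⟩
      show ex w (x, y) ∈ _
      rw [caseB M hM]
      exact ⟨hx, by rw [hc, sub_self, mul_zero]⟩
    · intro hz
      obtain ⟨x, y, rfl⟩ := ex_surj w z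
      rw [caseB M hM] at hz
      exact ⟨⟨⟨x, hz.1⟩, y⟩, rfl⟩

theorem inner {ι : Type} [Fintype ι] (M : Matrix ι ι (ZMod 3)) (hM : M.IsSymm) (f : ℕ → ℝ)
    (v : ι → ZMod 3) :
    ∑ c : ZMod 3, f (cork (border M v c)) =
      (if v ∈ LinearMap.range M.mulVecLin then
        2 * f (cork M) + f (cork M + 1) - 3 * f (cork M - 1) else 0) + 3 * f (cork M - 1) := by
  have h3 : ((Finset.univ : Finset (ZMod 3)).card : ℝ) = 3 := by
    rw [Finset.card_univ, ZMod.card]; norm_num
  by_cases hv : v ∈ LinearMap.range M.mulVecLin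
  · rw [if_pos hv]
    obtain ⟨w, rfl⟩ := hv
    have : ∀ c : ZMod 3, f (cork (border M (M.mulVecLin w) c)) =
        (if c = ∑ j, w j * M.mulVecLin w j then f (cork M + 1) - f (cork M) else 0) +
          f (cork M) := by
      intro c
      by_cases hc : c = ∑ j, w j * M.mulVecLin w j
      · rw [if_pos hc, caseB2 M hM w c hc]; ring
      · rw [if_neg hc, caseB1 M hM w c hc]; ring
    rw [Finset.sum_congr rfl fun c _ => this c, Finset.sum_add_distrib, Finset.sum_const,
      Finset.sum_ite_eq' Finset.univ, if_pos (Finset.mem_univ _), nsmul_eq_mul, h3]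
    ring
  · rw [if_neg hv]
    have : ∀ c : ZMod 3, f (cork (border M v c)) = f (cork M - 1) := by
      intro c
      have := caseA M hM v c hv
      rw [← this]; rfl
    rw [Finset.sum_congr rfl fun c _ => this c, Finset.sum_const, nsmul_eq_mul, h3]
    ring

theorem t : S_LA := by
  intro ι _ M hM f
  rw [Finset.sum_congr rfl fun v _ => inner M hM f v, Finset.sum_add_distrib, Finset.sum_const,
    ← Finset.sum_filter, Finset.sum_const]
  have hc1 : (Finset.univ : Finset (ι → ZMod 3)).card = 3 ^ Fintype.card ι := by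
    rw [Finset.card_univ, Fintype.card_fun, ZMod.card]
  have hrk := LinearMap.finrank_range_add_finrank_ker M.mulVecLin
  rw [Module.finrank_fintype_fun_eq_card] at hrk
  have hc2 : ((Finset.univ : Finset (ι → ZMod 3)).filter
      (fun v => v ∈ LinearMap.range M.mulVecLin)).card =
      3 ^ Module.finrank (ZMod 3) (LinearMap.range M.mulVecLin) := by
    have h1 := Module.card_eq_pow_finrank (K := ZMod 3) (V := LinearMap.range M.mulVecLin)
    rw [ZMod.card] at h1
    rw [← h1, Fintype.card_subtype]
  have hs : cork M = Module.finrank (ZMod 3) (LinearMap.ker M.mulVecLin) := rfl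
  rw [hc1, hc2, ← hrk, ← hs]
  set r := Module.finrank (ZMod 3) (LinearMap.range M.mulVecLin) with hr
  set s := cork M with hs'
  unfold TT
  simp only [nsmul_eq_mul]
  push_cast
  have e1 : (3 : ℝ) ^ (r + s + 1) * (1 / 3 : ℝ) ^ (s + 1) = 3 ^ r := by
    rw [show r + s + 1 = r + (s + 1) from by ring, pow_add, mul_assoc, ← mul_pow]
    norm_num
  have e2 : (3 : ℝ) ^ (r + s + 1) * (1 / 3 : ℝ) ^ s = 3 * 3 ^ r := by
    rw [show r + s + 1 = (r + 1) + s from by ring, pow_add _ (r + 1), mul_assoc, ← mul_pow]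
    norm_num
    ring
  have e3 : (3 : ℝ) ^ (r + s + 1) = 3 * 3 ^ (r + s) := by ring
  calc (3 : ℝ) ^ r * (2 * f s + f (s + 1) - 3 * f (s - 1)) + 3 ^ (r + s) * (3 * f (s - 1))
      = (3 * 3 ^ (r + s) - 3 * 3 ^ r) * f (s - 1) + 2 * 3 ^ r * f s + 3 ^ r * f (s + 1) := by ring
    _ = (3 ^ (r + s + 1) - 3 ^ (r + s + 1) * (1 / 3 : ℝ) ^ s) * f (s - 1) +
          2 * (3 ^ (r + s + 1) * (1 / 3 : ℝ) ^ (s + 1)) * f s +
          (3 ^ (r + s + 1) * (1 / 3 : ℝ) ^ (s + 1)) * f (s + 1) := by rw [e1, e2, e3]
    _ = _ := by ring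

end Pool.Agent.H20S3.LA
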