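import Pool.Agent.H20S3.Def0

set_option autoImplicit false

namespace Pool.Agent.H20S3.LAPE0

open Finset
open scoped Classical

/-- multiplying the rows by units does not change the kernel -/
theorem cork_diag {ι : Type} [Fintype ι] [DecidableEq ι] (d : ι → ZMod 3) (hd : ∀ i, d i ≠ 0)
    (M : Matrix ι ι (ZMod 3)) : cork (Matrix.diagonal d * M) = cork M := by
  have : Fact (Nat.Prime 3) := ⟨Nat.prime_three⟩
  unfold cork
  have h : LinearMap.ker (Matrix.diagonal d * M).mulVecLin = LinearMap.ker M.mulVecLin := by
    ext x
    simp only [LinearMap.mem_ker, Matrix.mulVecLin_apply]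
    rw [← Matrix.mulVec_mulVec]
    constructor
    · intro hx
      funext i
      have := congrFun hx i
      rw [Matrix.mulVec_diagonal] at this
      simpa [hd i] using this
    · intro hx
      rw [hx, Matrix.mulVec_zero]
  rw [h]

theorem main {α : Type} [DecidableEq α] (P : Finset α) (m : α → ZMod 3) (c : α → α → ZMod 3)
    (hm : ∀ p ∈ P, m p ≠ 0) (W : P → P → ZMod 3) (hW : ∀ p r : P, W p r = m p * m r * c p r)
    (A : α → α → ZMod 3)
    (hA : ∀ p r, A p r = if p = r then - ∑ s ∈ P.erase p, m s * c p s else m r * c p r)
    (f : ℕ → ℝ) :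
    (∑ u : P → ZMod 3, f (cork (Matrix.of (fun p r : P => A p r) - Matrix.diagonal u))) /
      3 ^ P.card = Aw W f := by
  have : Fact (Nat.Prime 3) := ⟨Nat.prime_three⟩
  unfold Aw
  rw [Fintype.card_coe]
  congr 1
  set g0 : P → ZMod 3 := fun p => -(∑ r ∈ univ.erase p, W p r) with hg0
  -- the bijection
  let E : (P → ZMod 3) ≃ (P → ZMod 3) :=
    { toFun := fun u p => g0 p - m p * u p
      invFun := fun g p => (m p)⁻¹ * (g0 p - g p)
      left_inv := by
        intro u
        funext p
        have := hm p p.2
        simp only [sub_sub_cancel]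
        rw [← mul_assoc, inv_mul_cancel₀ this, one_mul]
      right_inv := by
        intro g
        funext p
        have := hm p p.2
        simp only
        rw [← mul_assoc, mul_inv_cancel₀ this, one_mul, sub_sub_cancel] }
  refine Finset.sum_equiv E (by intro u; simp) (fun u _ => ?_)
  congr 1
  have hmat : Mt W (E u) = Matrix.diagonal (fun p : P => m p) *
      (Matrix.of (fun p r : P => A p r) - Matrix.diagonal u) := by
    ext p r
    rw [Matrix.diagonal_mul]
    simp only [Mt, Matrix.of_apply, Matrix.sub_apply]
    by_cases hpr : p = r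
    · subst hpr
      rw [if_pos rfl, Matrix.diagonal_apply_eq, hA, if_pos rfl]
      change g0 p - m p * u p = _
      have hs : ∑ r ∈ univ.erase p, W p r = m p * ∑ s ∈ P.erase (p : α), m s * c p s := by
        rw [Finset.mul_sum]
        refine Finset.sum_bij (fun (r : P) _ => (r : α)) ?_ ?_ ?_ ?_
        · intro r hr
          rw [Finset.mem_erase] at hr ⊢
          exact ⟨fun h => hr.1 (Subtype.ext h), r.2⟩
        · intro r _ s _ h
          exact Subtype.ext h
        · intro s hs
          rw [Finset.mem_erase] at hs
          exact ⟨⟨s, hs.2⟩, by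
            rw [Finset.mem_erase]
            exact ⟨fun h => hs.1 (congrArg Subtype.val h), Finset.mem_univ _⟩, rfl⟩
        · intro r _
          rw [hW]
          ring
      rw [hg0]
      simp only
      rw [hs]
      ring
    · have hpr' : ¬ (p : α) = r := fun h => hpr (Subtype.ext h)
      rw [if_neg hpr, Matrix.diagonal_apply_ne _ hpr, hA, if_neg hpr', hW]
      ring
  rw [hmat]
  exact (cork_diag (fun p : P => m p) (fun p => hm p p.2) _).symm

end Pool.Agent.H20S3.LAPE0
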