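import Pool.Agent.H20S3.Def
import Pool.Agent.H20S3.LAPE0

/-!
# LAPE: the law in terms of the Laplacian
-/

set_option autoImplicit false

namespace Pool.Agent.H20S3.LAPE

open Filter Topology Finset
open Pool.Agent.Y692.QS (Ei w nr)
open Pool.Agent.Y715.T.Rec (cs)
open Pool.Agent.Y699.E (PD mem_PD)
open Pool.Agent.H20PT.Eis (Bs mz AE)
open scoped Classical

theorem t : S_LAPE := by
  intro D hD f
  exact LAPE0.main (PD D) (mz D) cs (fun p hp => Pool.Agent.H20PT.Eis.mz_ne hD hp) (Wd D)
    (fun p r => rfl) (AE (mz D) (PD D)) (fun p r => rfl) f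

end Pool.Agent.H20S3.LAPE
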