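import Pool.Agent.H20S3.Def

/-! Project H20S3, stub MAIN (helper64). -/

set_option autoImplicit false

namespace Pool.Agent.H20S3.MAIN

open Filter Topology Finset
open Pool.Agent.Y692.QS (Ei w nr)
open Pool.Agent.Y715.T.Rec (cs)
open Pool.Agent.Y715.T.RecG (Pq)
open Pool.Agent.Y699.E (PD mem_PD)
open Pool.Agent.H20PT.Eis (Bs mz)
open Q283.TC (NT)
open scoped Classical

theorem t (hM : S_MULT) (hA : S_AVG) (h1 : S_SUM1) (h2 : S_SUM2) : S_MAIN := by
  intro f G hG es
  induction es with
  | nil => intro h; exact absurd rfl h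
  | cons e es ih =>
    intro _ hes D hD
    have he : e = 1 ∨ e = 2 := hes e (by simp)
    have hD0 : D ≠ 0 := hD.ne
    have hP : ∀ q ∈ PD D, Pq q := fun q hq => ((mem_PD hD0).1 hq).1
    -- the symbols
    have hsym : ∀ π : Ei, Pq π → ¬ π ∣ D → ∀ p : PD D, cs (p : Ei) π = cs π (p : Ei) := by
      intro π hπ hn p
      have hp := (mem_PD hD0).1 p.2
      exact (Pool.Agent.Y699.E.rec_all (p : Ei) π hp.1 hπ fun h => hn (h.trans hp.2)).symm
    have hmem : ∀ π : Ei, Pq π → (π ∉ PD D ↔ ¬ π ∣ D) := by
      intro π hπ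
      rw [mem_PD hD0]
      tauto
    have hc : (3 : ℝ) ^ ((PD D).card + 1) ≠ 0 := by positivity
    rcases es with _ | ⟨e', es'⟩
    · -- one prime
      have hg : ∀ π, Pq π → π ∉ PD D → G (D * π ^ e) =
          (fun x : (PD D → ZMod 3) × ZMod 3 =>
            if ¬ (9 : ℤ) ∣ nr D * (1 + 3 * (x.2.val : ℤ)) ^ e - 1 then
              f (cork (Mt (Wd D) (gd D e x.1))) else 0) (fun q => cs π q, cs π w) := by
        intro π hπ hn
        have hn' := (hmem π hπ).1 hn
        rw [hG D hD e he π hπ hn']
        have hu : (fun p : PD D => cs (p : Ei) π) = fun q : PD D => cs π (q : Ei) :=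
          funext (hsym π hπ hn')
        rw [hu]
        simp only [Pool.Agent.H20PT.Eis.nine_iff hπ e]
      have hlim := hA (PD D) hP
        (fun x : (PD D → ZMod 3) × ZMod 3 =>
            if ¬ (9 : ℤ) ∣ nr D * (1 + 3 * (x.2.val : ℤ)) ^ e - 1 then
              f (cork (Mt (Wd D) (gd D e x.1))) else 0) (fun π => G (D * π ^ e)) hg
      refine ⟨fun π => G (D * π ^ e), fun π _ _ => rfl, ?_⟩
      have hs := h1 D hD e he f
      rw [hs] at hlim
      have hval : 2 * 3 ^ (PD D).card * Aw (Wd D) f / 3 ^ ((PD D).card + 1) =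
          2 / 3 * Aw (Wd D) (TT^[[e].length - 1] f) := by
        simp only [List.length_cons, List.length_nil, zero_add, Nat.sub_self,
          Function.iterate_zero, id_eq]
        rw [pow_succ]
        field_simp
      rw [hval] at hlim
      exact hlim
    · -- several primes
      set f' : ℕ → ℝ := TT^[es'.length] f with hf'
      have hIH : ∀ D' : Ei, Bs D' → IM G (e' :: es') D' (2 / 3 * Aw (Wd D') f') := by
        intro D' hD'
        have := ih (by simp) (fun x hx => hes x (List.mem_cons_of_mem _ hx)) D' hD'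
        simpa using this
      have hg : ∀ π, Pq π → π ∉ PD D → 2 / 3 * Aw (Wd (D * π ^ e)) f' =
          (fun x : (PD D → ZMod 3) × ZMod 3 =>
            2 / 3 * Aw (Wo (Wd D) fun p => mz D p * (e : ZMod 3) * x.1 p) f')
            (fun q => cs π q, cs π w) := by
        intro π hπ hn
        have hn' := (hmem π hπ).1 hn
        rw [(hM D hD e he π hπ hn').2.2 f']
        have hu : (fun p : PD D => mz D p * (e : ZMod 3) * cs (p : Ei) π) =
            fun p : PD D => mz D p * (e : ZMod 3) * cs π (p : Ei) :=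
          funext fun p => by rw [hsym π hπ hn' p]
        rw [hu]
      have hlim := hA (PD D) hP
        (fun x : (PD D → ZMod 3) × ZMod 3 =>
            2 / 3 * Aw (Wo (Wd D) fun p => mz D p * (e : ZMod 3) * x.1 p) f')
        (fun π => 2 / 3 * Aw (Wd (D * π ^ e)) f') hg
      refine ⟨fun π => 2 / 3 * Aw (Wd (D * π ^ e)) f', fun π hπ hn =>
        hIH _ (hM D hD e he π hπ hn).1, ?_⟩
      have hs := h2 D hD e he f'
      have hval : (∑ x : (PD D → ZMod 3) × ZMod 3,
          2 / 3 * Aw (Wo (Wd D) fun p => mz D p * (e : ZMod 3) * x.1 p) f') /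
            3 ^ ((PD D).card + 1) =
          2 / 3 * Aw (Wd D) (TT^[(e :: e' :: es').length - 1] f) := by
        rw [← Finset.mul_sum, hs]
        have h3 : TT^[(e :: e' :: es').length - 1] f = TT f' := by
          rw [hf']
          exact Function.iterate_succ_apply' TT es'.length f
        rw [h3]
        field_simp
      rw [hval] at hlim
      exact hlim

end Pool.Agent.H20S3.MAIN
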