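import Pool.Agent.H20S3.Def0

set_option autoImplicit false

/-! Project H20S3: stub MK, exponential convergence of the Markov chain. -/

namespace Pool.Agent.H20S3.MK

open Filter Topology Finset Pool.Agent.H20S3

theorem avg3 {a b c x y z m U V W : ℝ} (ha : 0 ≤ a) (hb : 0 ≤ b) (hc : 0 ≤ c) (h1 : a + b + c = 1)
    (hx : |x - m| ≤ U) (hy : |y - m| ≤ V) (hz : |z - m| ≤ W) :
    |a * x + b * y + c * z - m| ≤ a * U + b * V + c * W := by
  have e : a * x + b * y + c * z - m = a * (x - m) + b * (y - m) + c * (z - m) := by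
    have : m = (a + b + c) * m := by rw [h1, one_mul]
    nlinarith
  rw [e]
  have e1 : |a * (x - m)| ≤ a * U := by
    rw [abs_mul, abs_of_nonneg ha]
    exact mul_le_mul_of_nonneg_left hx ha
  have e2 : |b * (y - m)| ≤ b * V := by
    rw [abs_mul, abs_of_nonneg hb]
    exact mul_le_mul_of_nonneg_left hy hb
  have e3 : |c * (z - m)| ≤ c * W := by
    rw [abs_mul, abs_of_nonneg hc]
    exact mul_le_mul_of_nonneg_left hz hc
  have e4 := abs_add_le (a * (x - m) + b * (y - m)) (c * (z - m))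
  have e5 := abs_add_le (a * (x - m)) (b * (y - m))
  linarith

theorem w1 (s : ℕ) : 0 ≤ 1 - (1 / 3 : ℝ) ^ s := by
  have : (1 / 3 : ℝ) ^ s ≤ 1 := pow_le_one₀ (by norm_num) (by norm_num)
  linarith

theorem w2 (s : ℕ) : 0 ≤ 2 * (1 / 3 : ℝ) ^ (s + 1) := by positivity

theorem w3 (s : ℕ) : 0 ≤ (1 / 3 : ℝ) ^ (s + 1) := by positivity

theorem wsum (s : ℕ) : (1 - (1 / 3 : ℝ) ^ s) + 2 * (1 / 3 : ℝ) ^ (s + 1) + (1 / 3 : ℝ) ^ (s + 1) = 1 := by
  rw [pow_succ]
  ring

theorem mean3 (s : ℕ) : (1 - (1 / 3 : ℝ) ^ s) * 3 ^ (s - 1) + 2 * (1 / 3 : ℝ) ^ (s + 1) * 3 ^ s +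
    (1 / 3 : ℝ) ^ (s + 1) * 3 ^ (s + 1) = 3 ^ s / 3 + 4 / 3 := by
  have h1 : ∀ n : ℕ, (1 / 3 : ℝ) ^ n * 3 ^ n = 1 := fun n => by
    rw [← mul_pow]
    norm_num
  cases s with
  | zero => norm_num
  | succ n =>
    have h2 := h1 n
    simp only [Nat.add_sub_cancel, pow_succ] at h2 ⊢
    linear_combination (-1 / 3 + 2 / 3 + 1) * h2

theorem TT_eq (f : ℕ → ℝ) (s : ℕ) : TT f s = (1 - (1 / 3 : ℝ) ^ s) * f (s - 1) +
    2 * (1 / 3 : ℝ) ^ (s + 1) * f s + (1 / 3 : ℝ) ^ (s + 1) * f (s + 1) := rfl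

/-- the contraction -/
theorem step {f : ℕ → ℝ} {A : ℝ} (hA : 0 ≤ A) (h : ∀ s t, |f s - f t| ≤ A * (3 ^ s + 3 ^ t)) :
    ∀ s t, |TT f s - TT f t| ≤ 3 / 5 * A * (3 ^ s + 3 ^ t) := by
  have hgen : ∀ s t, |TT f s - TT f t| ≤ A * ((3 ^ s / 3 + 4 / 3) + (3 ^ t / 3 + 4 / 3)) := by
    intro s t
    have h1 : ∀ j, |TT f s - f j| ≤ A * ((3 ^ s / 3 + 4 / 3) + 3 ^ j) := by
      intro j
      rw [TT_eq]
      refine (avg3 (w1 s) (w2 s) (w3 s) (wsum s) (h (s - 1) j) (h s j) (h (s + 1) j)).trans (le_of_eq ?_)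
      have h2 := mean3 s
      have h3 := wsum s
      linear_combination A * h2 + A * 3 ^ j * h3
    have h4 : |TT f t - TT f s| ≤ (1 - (1 / 3 : ℝ) ^ t) * (A * ((3 ^ s / 3 + 4 / 3) + 3 ^ (t - 1))) +
        2 * (1 / 3 : ℝ) ^ (t + 1) * (A * ((3 ^ s / 3 + 4 / 3) + 3 ^ t)) +
        (1 / 3 : ℝ) ^ (t + 1) * (A * ((3 ^ s / 3 + 4 / 3) + 3 ^ (t + 1))) := by
      rw [TT_eq f t]
      refine avg3 (w1 t) (w2 t) (w3 t) (wsum t) ?_ ?_ ?_
      · rw [abs_sub_comm]; exact h1 _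
      · rw [abs_sub_comm]; exact h1 _
      · rw [abs_sub_comm]; exact h1 _
    rw [abs_sub_comm]
    refine h4.trans (le_of_eq ?_)
    have h2 := mean3 t
    have h3 := wsum t
    linear_combination A * h2 + A * (3 ^ s / 3 + 4 / 3) * h3
  have hlt : ∀ s t, s < t → |TT f s - TT f t| ≤ 3 / 5 * A * (3 ^ s + 3 ^ t) := by
    intro s t hst
    by_cases h01 : s = 0 ∧ t = 1
    · obtain ⟨rfl, rfl⟩ := h01
      have h1 : TT f 0 - TT f 1 = 1 / 9 * (f 1 - f 2) := by
        rw [TT_eq, TT_eq]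
        norm_num
        ring
      rw [h1, abs_mul, abs_of_pos (by norm_num : (0 : ℝ) < 1 / 9)]
      have h2 := h 1 2
      norm_num at h2 ⊢
      linarith
    · have h10 : (10 : ℝ) ≤ 3 ^ s + 3 ^ t := by
        rcases Nat.eq_zero_or_pos s with rfl | hs
        · have ht : 2 ≤ t := by omega
          have h1 : (3 : ℝ) ^ 2 ≤ 3 ^ t := pow_le_pow_right₀ (by norm_num) ht
          norm_num at h1 ⊢
          linarith
        · have h1 : (3 : ℝ) ^ 1 ≤ 3 ^ s := pow_le_pow_right₀ (by norm_num) hs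
          have h2 : (3 : ℝ) ^ 2 ≤ 3 ^ t := pow_le_pow_right₀ (by norm_num) (by omega)
          norm_num at h1 h2
          linarith
      refine (hgen s t).trans ?_
      have h5 := mul_le_mul_of_nonneg_left h10 hA
      nlinarith
  intro s t
  rcases lt_trichotomy s t with h1 | rfl | h1
  · exact hlt s t h1
  · rw [sub_self, abs_zero]
    positivity
  · rw [abs_sub_comm, add_comm]
    exact hlt t s h1

/-- the indicator -/
noncomputable def ind (r n : ℕ) : ℝ := if n = r then 1 else 0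

theorem ind_close (r s t : ℕ) : |ind r s - ind r t| ≤ 1 / 4 * (3 ^ s + 3 ^ t) := by
  by_cases hst : s = t
  · subst hst
    rw [sub_self, abs_zero]
    positivity
  · have h1 : |ind r s - ind r t| ≤ 1 := by
      unfold ind
      split_ifs <;> norm_num
    have h4 : (4 : ℝ) ≤ 3 ^ s + 3 ^ t := by
      have a1 : (1 : ℝ) ≤ 3 ^ s := one_le_pow₀ (by norm_num)
      have a2 : (1 : ℝ) ≤ 3 ^ t := one_le_pow₀ (by norm_num)
      rcases Nat.lt_or_gt_of_ne hst with h | h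
      · have h2 : (3 : ℝ) ^ 1 ≤ 3 ^ t := pow_le_pow_right₀ (by norm_num) (by omega)
        norm_num at h2
        linarith
      · have h2 : (3 : ℝ) ^ 1 ≤ 3 ^ s := pow_le_pow_right₀ (by norm_num) (by omega)
        norm_num at h2
        linarith
    linarith

theorem close (r k : ℕ) : ∀ s t, |TT^[k] (ind r) s - TT^[k] (ind r) t| ≤
    1 / 4 * (3 / 5 : ℝ) ^ k * (3 ^ s + 3 ^ t) := by
  induction k with
  | zero =>
    intro s t
    simpa using ind_close r s t
  | succ k ih =>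
    intro s t
    rw [Function.iterate_succ_apply']
    have h1 := step (f := TT^[k] (ind r)) (A := 1 / 4 * (3 / 5 : ℝ) ^ k) (by positivity) ih s t
    rw [pow_succ]
    refine h1.trans (le_of_eq ?_)
    ring

theorem bdd (r k : ℕ) : ∀ s, |TT^[k] (ind r) s| ≤ 1 := by
  induction k with
  | zero =>
    intro s
    simp only [Function.iterate_zero, id]
    unfold ind
    split_ifs <;> norm_num
  | succ k ih =>
    intro s
    rw [Function.iterate_succ_apply', TT_eq]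
    have h1 := avg3 (m := 0) (U := 1) (V := 1) (W := 1) (w1 s) (w2 s) (w3 s) (wsum s)
      (by rw [sub_zero]; exact ih (s - 1)) (by rw [sub_zero]; exact ih s)
      (by rw [sub_zero]; exact ih (s + 1))
    rw [sub_zero] at h1
    have h2 := wsum s
    linarith

theorem hs_congr {f g : ℕ → ℝ} {a : ℝ} (hg : HasSum g a) (h : ∀ s, f s = g s) : HasSum f a := by
  have e : f = g := funext h
  rw [e]
  exact hg

/-- the invariant measure -/
theorem invar {c : ℕ → ℝ} (hc0 : ∀ r, 0 < c r) (hc : HasSum c 1)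
    (hrec : ∀ r, c (r + 1) * ((3 : ℝ) ^ (r + 1) - 1) = c r) {f : ℕ → ℝ} (hf : ∀ s, |f s| ≤ 1) {v : ℝ}
    (hv : HasSum (fun s => c s * f s) v) : HasSum (fun s => c s * TT f s) v := by
  have h3 : ∀ n : ℕ, (1 / 3 : ℝ) ^ n * 3 ^ n = 1 := fun n => by
    rw [← mul_pow]
    norm_num
  have hkey : ∀ s, (1 - (1 / 3 : ℝ) ^ (s + 1)) * c (s + 1) = (1 / 3 : ℝ) ^ (s + 1) * c s := by
    intro s
    rw [← hrec s]
    linear_combination -c (s + 1) * h3 (s + 1)
  have hsum : Summable fun s => (1 / 3 : ℝ) ^ (s + 1) * (c s * f s) := by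
    refine Summable.of_norm_bounded hc.summable fun s => ?_
    rw [Real.norm_eq_abs, abs_mul, abs_mul, abs_of_pos (hc0 s), abs_of_nonneg (w3 s)]
    have a1 : (1 / 3 : ℝ) ^ (s + 1) ≤ 1 := pow_le_one₀ (by norm_num) (by norm_num)
    have a2 : c s * |f s| ≤ c s * 1 := mul_le_mul_of_nonneg_left (hf s) (hc0 s).le
    have a3 : 0 ≤ c s * |f s| := mul_nonneg (hc0 s).le (abs_nonneg _)
    calc (1 / 3 : ℝ) ^ (s + 1) * (c s * |f s|) ≤ 1 * (c s * |f s|) := mul_le_mul_of_nonneg_right a1 a3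
      _ ≤ c s := by linarith
  obtain ⟨V, hV⟩ := hsum
  have g1 : HasSum (fun s => c s * ((1 - (1 / 3 : ℝ) ^ s) * f (s - 1))) V := by
    rw [← hasSum_nat_add_iff' 1]
    have e0 : V - ∑ i ∈ range 1, c i * ((1 - (1 / 3 : ℝ) ^ i) * f (i - 1)) = V := by simp
    rw [e0]
    refine hs_congr hV fun s => ?_
    rw [Nat.add_sub_cancel]
    linear_combination f s * hkey s
  have g2 : HasSum (fun s => c s * (2 * (1 / 3 : ℝ) ^ (s + 1) * f s)) (2 * V) := by
    refine hs_congr (hV.mul_left 2) fun s => ?_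
    ring
  have g3 : HasSum (fun s => c s * ((1 / 3 : ℝ) ^ (s + 1) * f (s + 1))) (v - 3 * V) := by
    have h4 := hv.sub (hV.mul_left 3)
    have h5 : HasSum (fun s => (1 - (1 / 3 : ℝ) ^ s) * (c s * f s)) (v - 3 * V) := by
      refine hs_congr h4 fun s => ?_
      rw [pow_succ]
      ring
    rw [← hasSum_nat_add_iff' 1] at h5
    have e0 : v - 3 * V - ∑ i ∈ range 1, (1 - (1 / 3 : ℝ) ^ i) * (c i * f i) = v - 3 * V := by simp
    rw [e0] at h5
    refine hs_congr h5 fun s => ?_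
    linear_combination -f (s + 1) * hkey s
  have h5 := (g1.add g2).add g3
  have e : V + 2 * V + (v - 3 * V) = v := by ring
  rw [e] at h5
  refine hs_congr h5 fun s => ?_
  rw [TT_eq]
  ring

theorem sum_ind {c : ℕ → ℝ} (hc0 : ∀ r, 0 < c r) (hc : HasSum c 1)
    (hrec : ∀ r, c (r + 1) * ((3 : ℝ) ^ (r + 1) - 1) = c r) (r k : ℕ) :
    HasSum (fun s => c s * TT^[k] (ind r) s) (c r) := by
  induction k with
  | zero =>
    simp only [Function.iterate_zero, id]
    refine hs_congr (hasSum_ite_eq r (c r)) fun s => ?_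
    unfold ind
    by_cases h : s = r
    · simp [h]
    · simp [h]
  | succ k ih =>
    simp only [Function.iterate_succ_apply']
    exact invar hc0 hc hrec (bdd r k) ih

theorem sum_pow {c : ℕ → ℝ} (hc : HasSum c 1)
    (hrec : ∀ r, c (r + 1) * ((3 : ℝ) ^ (r + 1) - 1) = c r) :
    HasSum (fun s => c s * (3 : ℝ) ^ s) 2 := by
  have h1 : HasSum (fun s => c s * ((3 : ℝ) ^ s - 1)) 1 := by
    rw [← hasSum_nat_add_iff' 1]
    have e0 : (1 : ℝ) - ∑ i ∈ range 1, c i * ((3 : ℝ) ^ i - 1) = 1 := by simp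
    rw [e0]
    refine hs_congr hc fun s => ?_
    exact hrec s
  have h2 := hc.add h1
  have e : (1 : ℝ) + 1 = 2 := by norm_num
  rw [e] at h2
  refine hs_congr h2 fun s => ?_
  ring

theorem t : S_MK := by
  intro c hc0 hc hrec r k s
  have hF : ∀ n, TT^[k] (fun n => if n = r then 1 else 0) n = TT^[k] (ind r) n := fun n => rfl
  rw [hF]
  have h1 := sum_ind hc0 hc hrec r k
  have h2 := hc.mul_right (TT^[k] (ind r) s)
  have h3 := h2.sub h1
  rw [one_mul] at h3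
  have h4 := (hc.mul_right ((3 : ℝ) ^ s)).add (sum_pow hc hrec)
  have h5 := h4.mul_left (1 / 4 * (3 / 5 : ℝ) ^ k)
  rw [one_mul] at h5
  have hcl : ∀ t, |c t * TT^[k] (ind r) s - c t * TT^[k] (ind r) t| ≤
      1 / 4 * (3 / 5 : ℝ) ^ k * (c t * 3 ^ s + c t * 3 ^ t) := by
    intro t
    rw [← mul_sub, abs_mul, abs_of_pos (hc0 t)]
    refine (mul_le_mul_of_nonneg_left (close r k s t) (hc0 t).le).trans (le_of_eq ?_)
    ring
  rw [abs_le]
  constructor
  · have h6 := hasSum_le (fun t => (abs_le.mp (hcl t)).1) h5.neg h3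
    exact h6
  · exact hasSum_le (fun t => (abs_le.mp (hcl t)).2) h3 h5

end Pool.Agent.H20S3.MK
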