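import Pool.Agent.H20S3.FIN

set_option autoImplicit false

namespace Pool.Agent.H20S3.MULT

open Filter Topology Finset
open Pool.Agent.Y692.QS (Ei w nr)
open Pool.Agent.Y715.T.Rec (cs)
open Pool.Agent.Y715.T.RecG (Pq)
open Pool.Agent.Y699.E (PD mem_PD rec_all eq_of_dvd)
open Pool.Agent.H20PT.Eis (Bs mz mz_ne nd_of pi' ee' dt_mul pD_mul fac)
open scoped Classical

theorem bs_mul {D : Ei} (hD : Bs D) {e : ℕ} (he : e = 1 ∨ e = 2) {π : Ei} (hπ : Pq π)
    (hd : ¬ π ∣ D) : Bs (D * π ^ e) := by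
  have hdt := dt_mul hD he hπ hd
  have h3 : (3 : Ei) ∣ D * π ^ e - 1 := by
    have := Pool.Agent.R419.CE.three_pD hdt
    rwa [pD_mul hD he] at this
  refine ⟨h3, ?_⟩
  intro x hx
  by_contra hu
  have hx0 : x ≠ 0 := by
    rintro rfl
    rw [zero_pow three_ne_zero, zero_dvd_iff] at hx
    exact mul_ne_zero hD.ne (pow_ne_zero _ hπ.prime.ne_zero) hx
  obtain ⟨ρ, hρ, hρx⟩ := WfDvdMonoid.exists_irreducible_factor hu hx0
  have hρ' : Prime ρ := irreducible_iff_prime.1 hρ
  have h4 : ρ ^ 3 ∣ D * π ^ e := (pow_dvd_pow_of_dvd hρx 3).trans hx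
  by_cases h5 : ρ ∣ π
  · have h6 : Associated ρ π := hρ'.associated_of_dvd hπ.prime h5
    have h7 : π ^ 3 ∣ D * π ^ e := ((h6.pow_pow (n := 3)).symm.dvd).trans h4
    have h10 : π ^ (3 - e) * π ^ e ∣ D * π ^ e := by
      rw [← pow_add]
      have : 3 - e + e = 3 := by omega
      rw [this]
      exact h7
    have h11 := (mul_dvd_mul_iff_right (pow_ne_zero e hπ.prime.ne_zero)).1 h10
    have h12 : π ∣ D := (dvd_pow_self π (by omega : 3 - e ≠ 0)).trans h11
    exact hd h12
  · have h6 : IsCoprime (ρ ^ 3) (π ^ e) := by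
      refine IsCoprime.pow ?_
      exact (hρ'.irreducible.coprime_iff_not_dvd).2 h5
    have h7 : ρ ^ 3 ∣ D := h6.dvd_of_dvd_mul_right h4
    exact hρ'.not_isUnit (hD.2 ρ h7)

theorem pd_mul {D : Ei} (hD : Bs D) {e : ℕ} (he : e = 1 ∨ e = 2) {π : Ei} (hπ : Pq π)
    (hd : ¬ π ∣ D) : PD (D * π ^ e) = insert π (PD D) := by
  have h0 : D * π ^ e ≠ 0 := (bs_mul hD he hπ hd).ne
  ext q
  rw [mem_PD h0, Finset.mem_insert, mem_PD hD.ne]
  constructor
  · rintro ⟨hq, h⟩
    rcases hq.prime.dvd_or_dvd h with h1 | h1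
    · exact Or.inr ⟨hq, h1⟩
    · exact Or.inl (eq_of_dvd hq hπ (hq.prime.dvd_of_dvd_pow h1))
  · rintro (rfl | ⟨hq, h⟩)
    · refine ⟨hπ, dvd_mul_of_dvd_right (dvd_pow_self _ ?_) _⟩
      rcases he with rfl | rfl <;> norm_num
    · exact ⟨hq, dvd_mul_of_dvd_left h _⟩

theorem mz_old {D : Ei} (hD : Bs D) {e : ℕ} {π : Ei} (hπ : Pq π)
    (hd : ¬ π ∣ D) {q : Ei} (hq : q ∈ PD D) : mz (D * π ^ e) q = mz D q := by
  have hq1 := (mem_PD hD.ne).1 hq
  unfold mz
  congr 1
  have hfin : FiniteMultiplicity q D := FiniteMultiplicity.of_not_isUnit hq1.1.prime.not_isUnit hD.ne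
  have hnd : ¬ q ∣ π ^ e := by
    intro h
    have h1 := eq_of_dvd hq1.1 hπ (hq1.1.prime.dvd_of_dvd_pow h)
    exact hd (h1 ▸ hq1.2)
  apply multiplicity_eq_of_dvd_of_not_dvd
  · exact dvd_mul_of_dvd_left (pow_multiplicity_dvd q D) _
  · intro h
    have h6 : IsCoprime (q ^ (multiplicity q D + 1)) (π ^ e) := by
      refine IsCoprime.pow_left ?_
      exact (hq1.1.prime.irreducible.coprime_iff_not_dvd).2 hnd
    exact hfin.not_pow_dvd_of_multiplicity_lt (Nat.lt_succ_self _) (h6.dvd_of_dvd_mul_right h)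

theorem mz_new {D : Ei} {e : ℕ} {π : Ei} (hπ : Pq π)
    (hd : ¬ π ∣ D) : mz (D * π ^ e) π = (e : ZMod 3) := by
  unfold mz
  congr 1
  apply multiplicity_eq_of_dvd_of_not_dvd
  · exact dvd_mul_left _ _
  · intro h
    rw [pow_succ', mul_dvd_mul_iff_right (pow_ne_zero e hπ.prime.ne_zero)] at h
    exact hd h

theorem Aw_reindex {ι κ : Type} [Fintype ι] [Fintype κ] (σ : ι ≃ κ) (W : κ → κ → ZMod 3)
    (W' : ι → ι → ZMod 3) (h : ∀ p r, p ≠ r → W (σ p) (σ r) = W' p r) (f : ℕ → ℝ) :
    Aw W f = Aw W' f := by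
  unfold Aw
  rw [Fintype.card_congr σ]
  congr 1
  refine (Fintype.sum_equiv (Equiv.arrowCongr σ (Equiv.refl (ZMod 3))) _ _ fun u => ?_).symm
  congr 1
  rw [← cork_submatrix σ]
  congr 1
  ext p r
  rw [Matrix.submatrix_apply]
  unfold Mt
  rw [Matrix.of_apply, Matrix.of_apply]
  by_cases hpr : p = r
  · rw [if_pos hpr, if_pos (by rw [hpr])]
    simp [Equiv.arrowCongr]
  · rw [if_neg hpr, if_neg (fun e => hpr (σ.injective e)), h p r hpr]

theorem t : S_MULT := by
  intro D hD e he π hπ hd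
  have hpd := pd_mul hD he hπ hd
  have hn : π ∉ PD D := fun h => hd ((mem_PD hD.ne).1 h).2
  refine ⟨bs_mul hD he hπ hd, ?_, fun f => ?_⟩
  · rw [hpd, Finset.card_insert_of_notMem hn]
  · have hmem : ∀ q, q ∈ PD D → q ∈ PD (D * π ^ e) := fun q hq => by
      rw [hpd]; exact Finset.mem_insert_of_mem hq
    have hmemπ : π ∈ PD (D * π ^ e) := by
      rw [hpd]; exact Finset.mem_insert_self _ _
    let s : Option (PD D) → PD (D * π ^ e) := fun i => match i with
      | none => ⟨π, hmemπ⟩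
      | some q => ⟨q, hmem q q.2⟩
    have hs : Function.Bijective s := by
      constructor
      · intro a b hab
        have h1 := congrArg Subtype.val hab
        cases a with
        | none =>
          cases b with
          | none => rfl
          | some r =>
            have h2 : π = (r : Ei) := h1
            exact absurd (h2 ▸ r.2) hn
        | some q =>
          cases b with
          | none =>
            have h2 : (q : Ei) = π := h1
            exact absurd (h2 ▸ q.2) hn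
          | some r => exact congrArg some (Subtype.ext h1)
      · rintro ⟨q, hq⟩
        have hq' := hq
        rw [hpd, Finset.mem_insert] at hq'
        rcases hq' with h | h
        · exact ⟨none, Subtype.ext h.symm⟩
        · exact ⟨some ⟨q, h⟩, rfl⟩
    refine Aw_reindex (Equiv.ofBijective s hs) _ _ ?_ f
    intro p r hpr
    have hc : ∀ q : PD D, cs π (q : Ei) = cs (q : Ei) π := by
      intro q
      have hq := ((mem_PD hD.ne).1 q.2).1
      have hne : π ≠ (q : Ei) := fun h => hn (h ▸ q.2)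
      exact rec_all (q : Ei) π hq hπ (nd_of hπ hq hne)
    cases p with
    | none =>
      cases r with
      | none => exact absurd rfl hpr
      | some r =>
        show mz (D * π ^ e) π * mz (D * π ^ e) r * cs π r = mz D r * (e : ZMod 3) * cs r π
        rw [mz_new hπ hd, mz_old hD hπ hd r.2, hc r]
        ring
    | some p =>
      cases r with
      | none =>
        show mz (D * π ^ e) p * mz (D * π ^ e) π * cs p π = mz D p * (e : ZMod 3) * cs p π
        rw [mz_new hπ hd, mz_old hD hπ hd p.2]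
      | some r =>
        show mz (D * π ^ e) p * mz (D * π ^ e) r * cs p r = mz D p * mz D r * cs p r
        rw [mz_old hD hπ hd p.2, mz_old hD hπ hd r.2]

end Pool.Agent.H20S3.MULT
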