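import Pool.Agent.H20S3.Def0

/-! Project H20S3, stub REC (helper17). -/

set_option autoImplicit false

namespace Pool.Agent.H20S3.REC

open Filter Topology Finset Pool.Agent.H20S3
open scoped Classical

theorem Aw_eq {ι : Type} [Fintype ι] [DecidableEq ι] (W : ι → ι → ZMod 3) (f : ℕ → ℝ) :
    Aw W f = (∑ g : ι → ZMod 3, f (cork (Mt W g))) / 3 ^ Fintype.card ι := by
  unfold Aw
  congr 1
  exact Finset.sum_congr (Finset.ext fun x => by simp only [Finset.mem_univ]) fun _ _ => rfl

theorem Mt_Wo {ι : Type} (W : ι → ι → ZMod 3) (u : ι → ZMod 3) (g' : Option ι → ZMod 3) :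
    Mt (Wo W u) g' = border (Mt W fun i => g' (some i)) u (g' none) := by
  ext p r
  rcases p with _ | p <;> rcases r with _ | r
  · simp [Mt, border, Wo]
  · simp [Mt, border, Wo]
  · simp [Mt, border, Wo]
  · by_cases h : p = r <;> simp [Mt, border, Wo, h]

theorem t (h : S_LA) : S_REC := by
  intro ι _ W hW f
  have key : ∀ u : ι → ZMod 3, ∑ g' : Option ι → ZMod 3, f (cork (Mt (Wo W u) g')) =
      ∑ g : ι → ZMod 3, ∑ c : ZMod 3, f (cork (border (Mt W g) u c)) := by
    intro u
    rw [Finset.sum_comm, ← Fintype.sum_prod_type (f := fun x : ZMod 3 × (ι → ZMod 3) =>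
      f (cork (border (Mt W x.2) u x.1)))]
    refine Fintype.sum_equiv (Equiv.piOptionEquivProd (β := fun _ : Option ι => ZMod 3)) _ _ fun g' => ?_
    rw [Mt_Wo]
    rfl
  have hs : ∀ g : ι → ZMod 3, (Mt W g).IsSymm := by
    intro g
    ext p r
    by_cases hpr : p = r
    · subst hpr
      rfl
    · have : ¬ r = p := fun h => hpr h.symm
      simp [Matrix.transpose_apply, Mt, hpr, this, hW r p]
  have e1 : ∑ u : ι → ZMod 3, Aw (Wo W u) f =
      (∑ g : ι → ZMod 3, ∑ u : ι → ZMod 3, ∑ c : ZMod 3, f (cork (border (Mt W g) u c))) /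
        3 ^ (Fintype.card ι + 1) := by
    rw [Finset.sum_comm, Finset.sum_div]
    refine Finset.sum_congr rfl fun u _ => ?_
    rw [Aw_eq, key u, Fintype.card_option]
  rw [e1, Aw_eq]
  have e2 : ∀ g : ι → ZMod 3, ∑ u : ι → ZMod 3, ∑ c : ZMod 3, f (cork (border (Mt W g) u c)) =
      3 ^ (Fintype.card ι + 1) * TT f (cork (Mt W g)) := fun g => h ι (Mt W g) (hs g) f
  simp only [e2]
  rw [← Finset.mul_sum]
  field_simp

end Pool.Agent.H20S3.REC
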