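import Pool.Agent.H20S3.Def

set_option autoImplicit false

namespace Pool.Agent.H20S3.SOL

open Filter Topology Finset
open Pool.Agent.Y692.QS (Ei w nr)
open Pool.Agent.Y715.T.Rec (cs)
open Pool.Agent.Y715.T.RecG (Pq)
open Pool.Agent.Y699.E (PD mem_PD rec_all)
open Pool.Agent.H20PT.Eis (Bs mz mz_ne nd_of pi' ee')
open Pool.Agent.XL6 (KerV)
open scoped Classical

theorem symm {D : Ei} (hD : Bs D) (p r : PD D) : Wd D p r = Wd D r p := by
  unfold Wd
  by_cases hpr : (p : Ei) = r
  · rw [hpr]
  · have hp := ((mem_PD hD.ne).1 p.2).1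
    have hr := ((mem_PD hD.ne).1 r.2).1
    rw [rec_all (r : Ei) (p : Ei) hr hp (nd_of hp hr hpr)]
    ring

theorem row (D : Ei) (e : ℕ) (u x : PD D → ZMod 3) (p : PD D) :
    (Mt (Wd D) (gd D e u)).mulVec x p =
      ∑ r, Wd D p r * (x r - x p) - mz D p * (e : ZMod 3) * u p * x p := by
  have h1 : (Mt (Wd D) (gd D e u)).mulVec x p = ∑ r, (Mt (Wd D) (gd D e u)) p r * x r := rfl
  rw [h1, ← Finset.add_sum_erase _ _ (Finset.mem_univ p),
    ← Finset.add_sum_erase _ (fun r => Wd D p r * (x r - x p)) (Finset.mem_univ p)]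
  have h2 : ∑ r ∈ univ.erase p, (Mt (Wd D) (gd D e u)) p r * x r =
      ∑ r ∈ univ.erase p, Wd D p r * x r := by
    refine Finset.sum_congr rfl fun r hr => ?_
    have : (Mt (Wd D) (gd D e u)) p r = Wd D p r := by
      unfold Mt
      rw [Matrix.of_apply, if_neg (Finset.ne_of_mem_erase hr).symm]
    rw [this]
  have h3 : (Mt (Wd D) (gd D e u)) p p = -(∑ r ∈ univ.erase p, Wd D p r) -
      mz D p * (e : ZMod 3) * u p := by
    unfold Mt
    rw [Matrix.of_apply, if_pos rfl]
    rfl
  have h4 : ∑ r ∈ univ.erase p, Wd D p r * (x r - x p) =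
      ∑ r ∈ univ.erase p, Wd D p r * x r - (∑ r ∈ univ.erase p, Wd D p r) * x p := by
    rw [Finset.sum_mul, ← Finset.sum_sub_distrib]
    exact Finset.sum_congr rfl fun r _ => by ring
  rw [h2, h3, h4]
  ring

theorem anti {D : Ei} (hD : Bs D) (x : PD D → ZMod 3) :
    ∑ p, ∑ r, Wd D p r * (x r - x p) = 0 := by
  have h1 : ∑ p, ∑ r, Wd D p r * (x r - x p) = - ∑ p, ∑ r, Wd D p r * (x r - x p) := by
    conv_lhs => rw [Finset.sum_comm]
    rw [← Finset.sum_neg_distrib]
    refine Finset.sum_congr rfl fun p _ => ?_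
    rw [← Finset.sum_neg_distrib]
    refine Finset.sum_congr rfl fun r _ => ?_
    rw [symm hD r p]
    ring
  have h2 : ∀ a : ZMod 3, a = -a → a = 0 := by decide
  exact h2 _ h1

theorem mem_iff {D : Ei} (hD : Bs D) {e : ℕ} (he : e = 1 ∨ e = 2) {π : Ei} (hπ : Pq π)
    (hd : ¬ π ∣ D) (v : Option (PD D) → ZMod 3) :
    v ∈ KerV (pi' (F := PD D) π) (ee' (mz D) (e : ZMod 3)) ↔
      (Mt (Wd D) (gd D e fun p => cs p π)).mulVec (fun p => v (some p) - v none) = 0 := by
  have he0 : (e : ZMod 3) ≠ 0 := by rcases he with rfl | rfl <;> decide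
  set x : PD D → ZMod 3 := fun p => v (some p) - v none with hx
  have hsome : ∀ p : PD D, mz D p * (∑ i, ee' (mz D) (e : ZMod 3) i *
      cs (pi' (F := PD D) π (some p)) (pi' π i) * (v i - v (some p))) =
      (Mt (Wd D) (gd D e fun p => cs p π)).mulVec x p := by
    intro p
    rw [row, Fintype.sum_option, mul_add, Finset.mul_sum]
    have h1 : ∑ r : PD D, mz D p * (ee' (mz D) (e : ZMod 3) (some r) *
        cs (pi' (F := PD D) π (some p)) (pi' π (some r)) * (v (some r) - v (some p))) =
        ∑ r, Wd D p r * (x r - x p) := by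
      refine Finset.sum_congr rfl fun r _ => ?_
      have e1 : ee' (mz D) (e : ZMod 3) (some r) = mz D r := rfl
      have e2 : cs (pi' (F := PD D) π (some p)) (pi' π (some r)) = cs p r := rfl
      have e3 : x r - x p = v (some r) - v (some p) := by rw [hx]; ring
      rw [e1, e2, e3]
      unfold Wd
      ring
    rw [h1]
    have e1 : ee' (F := PD D) (mz D) (e : ZMod 3) none = (e : ZMod 3) := rfl
    have e2 : cs (pi' (F := PD D) π (some p)) (pi' (F := PD D) π none) = cs p π := rfl
    have e3 : v none - v (some p) = - x p := by rw [hx]; ring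
    rw [e1, e2, e3]
    ring
  have hnone : ∑ i, ee' (mz D) (e : ZMod 3) i *
      cs (pi' (F := PD D) π none) (pi' π i) * (v i - v none) =
      ∑ p : PD D, mz D p * cs p π * x p := by
    rw [Fintype.sum_option, sub_self, mul_zero, zero_add]
    refine Finset.sum_congr rfl fun p _ => ?_
    have hp := ((mem_PD hD.ne).1 p.2).1
    have hne : (p : Ei) ≠ π := fun h => hd (h ▸ ((mem_PD hD.ne).1 p.2).2)
    have e2 : cs (pi' (F := PD D) π none) (pi' (F := PD D) π (some p)) = cs π p := rfl
    have e3 : cs π (p : Ei) = cs (p : Ei) π :=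
      rec_all (p : Ei) π hp hπ (nd_of hπ hp (fun h => hne h.symm))
    rw [e2, e3]
    rfl
  constructor
  · intro h
    funext p
    rw [← hsome p, h (some p), mul_zero]
    rfl
  · intro h j
    have hall : ∀ p : PD D, (Mt (Wd D) (gd D e fun p => cs p π)).mulVec x p = 0 := fun p =>
      congrFun h p
    cases j with
    | some p =>
      have h1 := hsome p
      rw [hall p] at h1
      exact (mul_eq_zero.1 h1).resolve_left (mz_ne hD p.2)
    | none =>
      rw [hnone]
      have h1 : ∑ p : PD D, (Mt (Wd D) (gd D e fun p => cs p π)).mulVec x p = 0 :=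
        Finset.sum_eq_zero fun p _ => hall p
      simp only [row] at h1
      rw [Finset.sum_sub_distrib, anti hD x, zero_sub, neg_eq_zero] at h1
      have h2 : (e : ZMod 3) * ∑ p : PD D, mz D p * cs p π * x p = 0 := by
        rw [← h1, Finset.mul_sum]
        exact Finset.sum_congr rfl fun p _ => by ring
      exact (mul_eq_zero.1 h2).resolve_left he0

theorem t : S_SOL := by
  intro D hD e he π hπ hd
  set M := Mt (Wd D) (gd D e fun p => cs p π) with hM
  let N := LinearMap.ker M.mulVecLin
  have hN : Nat.card N = 3 ^ cork M := by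
    rw [Module.natCard_eq_pow_finrank (K := ZMod 3), Nat.card_zmod]
    rfl
  have key : KerV (pi' (F := PD D) π) (ee' (mz D) (e : ZMod 3)) ≃ ZMod 3 × N :=
    { toFun := fun v => (v.1 none, ⟨fun p => v.1 (some p) - v.1 none, by
        rw [LinearMap.mem_ker, Matrix.mulVecLin_apply]
        exact (mem_iff hD he hπ hd v.1).1 v.2⟩)
      invFun := fun c => ⟨fun i => match i with | none => c.1 | some p => c.2.1 p + c.1, by
        rw [mem_iff hD he hπ hd]
        have h1 := c.2.2
        rw [LinearMap.mem_ker, Matrix.mulVecLin_apply] at h1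
        have h2 : (fun p : PD D => c.2.1 p + c.1 - c.1) = c.2.1 := by
          funext p
          ring
        show M.mulVec (fun p : PD D => c.2.1 p + c.1 - c.1) = 0
        rw [h2]
        exact h1⟩
      left_inv := by
        rintro ⟨v, hv⟩
        apply Subtype.ext
        funext i
        cases i with
        | none => rfl
        | some p => exact sub_add_cancel _ _
      right_inv := by
        rintro ⟨c, x, hx⟩
        refine Prod.ext rfl (Subtype.ext ?_)
        funext p
        exact add_sub_cancel_right _ _ }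
  rw [← Nat.card_coe_set_eq, Nat.card_congr key, Nat.card_prod, Nat.card_zmod, hN, pow_succ]
  ring

end Pool.Agent.H20S3.SOL
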