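import Pool.Agent.H20S3.Def

/-!
# Project H20S3, stub SUM1
-/

set_option autoImplicit false

namespace Pool.Agent.H20S3.SUM1

open Filter Topology Finset
open Pool.Agent.Y692.QS (Ei w nr)
open Pool.Agent.Y715.T.Rec (cs)
open Pool.Agent.Y699.E (PD)
open Pool.Agent.H20PT.Eis (Bs mz)
open scoped Classical

theorem e_ne {e : ℕ} (he : e = 1 ∨ e = 2) : (e : ZMod 3) ≠ 0 := by
  rcases he with rfl | rfl
  · decide
  · decide

theorem gd_inj {D : Ei} (hD : Bs D) {e : ℕ} (he : e = 1 ∨ e = 2) : Function.Injective (gd D e) := by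
  intro u v h
  funext p
  have h1 : gd D e u p = gd D e v p := by rw [h]
  unfold gd at h1
  have h2 : mz D p * (e : ZMod 3) * u p = mz D p * (e : ZMod 3) * v p := sub_right_injective h1
  exact mul_left_cancel₀ (mul_ne_zero (Pool.Agent.H20PT.Eis.mz_ne hD p.2) (e_ne he)) h2

theorem gd_bij {D : Ei} (hD : Bs D) {e : ℕ} (he : e = 1 ∨ e = 2) : Function.Bijective (gd D e) :=
  Finite.injective_iff_bijective.1 (gd_inj hD he)

theorem cnt {D : Ei} (hD : Bs D) {e : ℕ} (he : e = 1 ∨ e = 2) (c : ℝ) :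
    ∑ t : ZMod 3, (if ¬ (9 : ℤ) ∣ nr D * (1 + 3 * (t.val : ℤ)) ^ e - 1 then c else 0) = 2 * c := by
  have h := Pool.Agent.H20PT.Eis.cls_one hD he
  unfold Pool.Agent.H20PT.Eis.cls at h
  simp only [Finset.mem_singleton, forall_eq] at h
  rw [Nat.card_eq_fintype_card, Fintype.card_subtype] at h
  have h3 : (Finset.univ.filter fun t : ZMod 3 =>
      ¬ (9 : ℤ) ∣ nr D * (1 + 3 * (t.val : ℤ)) ^ e - 1).card = 2 := by
    convert h
  rw [← Finset.sum_filter, Finset.sum_const, nsmul_eq_mul, h3]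
  norm_num

theorem sum_inst {α : Type} (i1 i2 : Fintype α) (F : α → ℝ) :
    (@Finset.univ α i1).sum F = (@Finset.univ α i2).sum F := by
  rw [Subsingleton.elim i1 i2]

theorem t : S_SUM1 := by
  intro D hD e he f
  have h1 : ∀ u : PD D → ZMod 3, ∑ t : ZMod 3,
      (if ¬ (9 : ℤ) ∣ nr D * (1 + 3 * (t.val : ℤ)) ^ e - 1 then f (cork (Mt (Wd D) (gd D e u))) else 0) =
        2 * f (cork (Mt (Wd D) (gd D e u))) := fun u => cnt hD he _
  have h2 : ∑ u : PD D → ZMod 3, f (cork (Mt (Wd D) (gd D e u))) =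
      ∑ g : PD D → ZMod 3, f (cork (Mt (Wd D) g)) :=
    Fintype.sum_bijective (gd D e) (gd_bij hD he) _ _ fun u => rfl
  have h3 : (3 : ℝ) ^ (PD D).card * Aw (Wd D) f = ∑ g : PD D → ZMod 3, f (cork (Mt (Wd D) g)) := by
    unfold Aw
    rw [Fintype.card_coe, mul_comm, div_mul_cancel₀ _ (pow_ne_zero _ three_ne_zero)]
    exact sum_inst _ _ _
  rw [Fintype.sum_prod_type, mul_assoc, h3, ← h2, Finset.mul_sum]
  exact Finset.sum_congr rfl fun u _ => h1 u

end Pool.Agent.H20S3.SUM1
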