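import Pool.Agent.H20S3.Def

set_option autoImplicit false

namespace Pool.Agent.H20S3.SUM2

open Filter Topology Finset
open Pool.Agent.Y692.QS (Ei w nr)
open Pool.Agent.Y715.T.Rec (cs)
open Pool.Agent.Y715.T.RecG (Pq)
open Pool.Agent.Y699.E (PD mem_PD rec_all)
open Pool.Agent.H20PT.Eis (Bs mz mz_ne nd_of)
open scoped Classical

theorem symm {D : Ei} (hD : Bs D) (p r : PD D) : Wd D p r = Wd D r p := by
  unfold Wd
  by_cases hpr : (p : Ei) = r
  · rw [hpr]
  · have hp := ((mem_PD hD.ne).1 p.2).1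
    have hr := ((mem_PD hD.ne).1 r.2).1
    rw [rec_all (r : Ei) (p : Ei) hr hp (nd_of hp hr hpr)]
    ring

theorem t (h : S_REC) : S_SUM2 := by
  intro D hD e he f
  have he0 : (e : ZMod 3) ≠ 0 := by rcases he with rfl | rfl <;> decide
  have hm : ∀ p : PD D, mz D p * (e : ZMod 3) ≠ 0 := fun p => mul_ne_zero (mz_ne hD p.2) he0
  have h1 := h (PD D) (Wd D) (symm hD) f
  rw [Fintype.card_coe] at h1
  have e1 : ∑ x : (PD D → ZMod 3) × ZMod 3,
      Aw (Wo (Wd D) fun p => mz D p * (e : ZMod 3) * x.1 p) f =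
      3 * ∑ u : PD D → ZMod 3, Aw (Wo (Wd D) fun p => mz D p * (e : ZMod 3) * u p) f := by
    rw [Fintype.sum_prod_type]
    simp only [Finset.sum_const, Finset.card_univ, ZMod.card, nsmul_eq_mul]
    rw [← Finset.mul_sum]
    norm_num
  have e2 : ∑ u : PD D → ZMod 3, Aw (Wo (Wd D) fun p => mz D p * (e : ZMod 3) * u p) f =
      ∑ u : PD D → ZMod 3, Aw (Wo (Wd D) u) f :=
    Fintype.sum_equiv (Equiv.piCongrRight fun p => Equiv.mulLeft₀ _ (hm p)) _ _ fun u => rfl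
  rw [e1, e2]
  have e3 : ∑ u : PD D → ZMod 3, Aw (Wo (Wd D) u) f = 3 ^ (PD D).card * Aw (Wd D) (TT f) :=
    (Finset.sum_congr (Finset.ext fun x => by simp only [Finset.mem_univ]) fun _ _ => rfl).trans h1
  rw [e3]
  ring

end Pool.Agent.H20S3.SUM2
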