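import Pool.Agent.H20S3.FIN
import Pool.Agent.H20S3.SOL

/-!
# Project H20S3: the trivial groups
-/

set_option autoImplicit false

namespace Pool.Agent.H20S3

open Filter Topology Finset NumberField
open Pool.Agent.Y692.QS (Ei w nr)
open Pool.Agent.Y715.T.Rec (cs)
open Pool.Agent.Y715.T.RecG (Pq)
open Pool.Agent.Y699.E (PD mem_PD)
open Pool.Agent.H20PT.Eis (Bs mz pi' ee' dt_mul pD_mul cls_mul BaseK base_j exists_iso divs)
open Pool.Agent.Y696.CTK (Tri)
open scoped Classical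

theorem ker_cork {D : Ei} (hD : Bs D) {e : ℕ} (he : e = 1 ∨ e = 2) {π : Ei} (hπ : Pq π)
    (hd : ¬ π ∣ D) :
    (∀ v : Option (PD D) → ZMod 3, (∀ j, ∑ i, ee' (F := PD D) (mz D) (e : ZMod 3) i *
      cs (pi' (F := PD D) π j) (pi' (F := PD D) π i) * (v i - v j) = 0) → ∀ i j, v i = v j) ↔
      cork (Mt (Wd D) (gd D e fun p => cs p π)) = 0 := by
  have : Fact (Nat.Prime 3) := ⟨Nat.prime_three⟩
  set M := Mt (Wd D) (gd D e fun p => cs p π) with hM
  have key := fun v => SOL.mem_iff hD he hπ hd v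
  rw [← hM] at key
  constructor
  · intro h
    unfold cork
    rw [Submodule.finrank_eq_zero, eq_bot_iff]
    intro x hx
    rw [LinearMap.mem_ker, Matrix.mulVecLin_apply] at hx
    have hv := (key (fun i => match i with | none => 0 | some p => x p)).2 (by
      have h2 : (fun p : PD D => x p - 0) = x := by
        funext p
        exact sub_zero _
      show M.mulVec (fun p : PD D => x p - 0) = 0
      rw [h2]
      exact hx)
    have h3 := h _ hv
    rw [Submodule.mem_bot]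
    funext p
    exact h3 (some p) none
  · intro h v hv
    unfold cork at h
    rw [Submodule.finrank_eq_zero] at h
    have h1 := (key v).1 hv
    have h2 : (fun p : PD D => v (some p) - v none) ∈ LinearMap.ker M.mulVecLin := by
      rw [LinearMap.mem_ker, Matrix.mulVecLin_apply]
      exact h1
    rw [h, Submodule.mem_bot] at h2
    have h3 : ∀ i, v i = v none := by
      intro i
      cases i with
      | none => rfl
      | some p => exact sub_eq_zero.1 (congrFun h2 p)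
    intro i j
    rw [h3 i, h3 j]

variable {K : Type} [Field K] [NumberField K] {j : Ei ≃+* 𝓞 K}

theorem tri_cork [IsCyclotomicExtension {3} ℚ K] {D : Ei} (hD : Bs D) {e : ℕ}
    (he : e = 1 ∨ e = 2) {π : Ei} (hπ : Pq π) (hd : ¬ π ∣ D)
    (h9 : ¬ (9 : ℤ) ∣ nr (D * π ^ e) - 1) :
    Tri (j (D * π ^ e)) ↔ cork (Mt (Wd D) (gd D e fun p => cs p π)) = 0 := by
  have hdt := dt_mul hD he hπ hd
  have h1 := Pool.Agent.R419.KF.tri_iff j Pool.Agent.Y696.CTK.parts hdt (by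
    rw [pD_mul hD he]; exact h9)
  rw [pD_mul hD he] at h1
  rw [h1]
  exact ker_cork hD he hπ hd

/-- the value of the `L`-function -/
theorem lval [IsCyclotomicExtension {3} ℚ K] {D : 𝓞 K} (hD : Pool.Agent.R419.KF.ClsKC D)
    (hT : Tri D) : ∃ Lf : ℂ → ℂ, Differentiable ℂ Lf ∧
    (∀ s : ℂ, 3 / 2 < s.re →
      LSeriesSummable ((fun n : ℤ => (n : ℂ)) ∘
        (⟨0, 0, (D : K), 0, 0⟩ : WeierstrassCurve K).LFunction) s ∧
        Lf s = (⟨0, 0, (D : K), 0, 0⟩ : WeierstrassCurve K).LSeries s) ∧ Lf 1 ≠ 0 := by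
  have h3 := ((Pool.Agent.R419.KF.final3 K).2.1 _ hD).1
  obtain ⟨-, -, Lf, c, k1, k2, k3, -⟩ := h3
  exact ⟨Lf, k1, k2, k3 hT⟩

theorem fin4 [IsCyclotomicExtension {3} ℚ K] {ω : 𝓞 K} (hω : ω ^ 2 + ω + 1 = 0) (hM : S_MAIN)
    (hL : S_LAPE) (G : 𝓞 K → Prop)
    (hG : ∀ D : 𝓞 K, G D ↔ ¬ (9 : ℤ) ∣ Algebra.norm ℤ D - 1 ∧ Tri D ∧
      ∃ Lf : ℂ → ℂ, Differentiable ℂ Lf ∧
      (∀ s : ℂ, 3 / 2 < s.re →
        LSeriesSummable ((fun n : ℤ => (n : ℂ)) ∘
          (⟨0, 0, (D : K), 0, 0⟩ : WeierstrassCurve K).LFunction) s ∧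
          Lf s = (⟨0, 0, (D : K), 0, 0⟩ : WeierstrassCurve K).LSeries s) ∧ Lf 1 ≠ 0)
    (D : 𝓞 K) (hD : BaseK D) (es : List ℕ) (hes : es ≠ [])
    (he : ∀ e ∈ es, e = 1 ∨ e = 2) :
    IMK (fun D' : 𝓞 K => if G D' then 1 else 0) es D
      (2 / 3 * oneK ω D (TT^[es.length - 1] fun n => if n = 0 then 1 else 0)) := by
  obtain ⟨j, hj, hw⟩ := exists_iso hω
  obtain ⟨z, rfl⟩ := j.surjective D
  have hz : Bs z := base_j.1 hD
  rw [one_j hL hj hw hz]
  refine trk hj _ es z _ (hM _ _ ?_ es hes he z hz)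
  intro D hD e he π hπ hd
  by_cases h9 : ¬ (9 : ℤ) ∣ nr (D * π ^ e) - 1
  · have h1 := tri_cork (j := j) hD he hπ hd h9
    rw [if_pos h9]
    refine if_congr ?_ rfl rfl
    rw [← h1, hG, hj]
    constructor
    · exact fun h => h.2.1
    · exact fun h => ⟨h9, h, lval (cls_mul hj hD he hπ hd h9) h⟩
  · rw [if_neg h9, if_neg]
    rw [hG, hj]
    exact fun h => h9 h.1

end Pool.Agent.H20S3
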