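import Pool.Agent.H20S3.Def

/-!
# Project H20S3: from the Eisenstein integers to `𝓞 K`
-/

set_option autoImplicit false

namespace Pool.Agent.H20S3

open Filter Topology Finset NumberField
open Pool.Agent.Y692.QS (Ei w nr)
open Pool.Agent.Y715.T.Rec (cs)
open Pool.Agent.Y715.T.RecG (Pq)
open Pool.Agent.Y699.E (PD mem_PD)
open Pool.Agent.H20PT.Eis (Bs mz pi' ee' AE Primary primary_j symbol_j mem_divs_j dt_mul pD_mul cls_mul
  dvd_j)
open Pool.Agent.XL6 (KerV SelK)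
open Pool.Agent.R419.KF (ClsKC)
open Pool.Agent.R419.KL (Sel3)
open Q283.TC (NT)
open scoped Classical

variable {K : Type} [Field K] [NumberField K]

/-- the iterated mean over `𝓞 K` -/
def IMK (G : 𝓞 K → ℝ) : List ℕ → 𝓞 K → ℝ → Prop
  | [], D, m => m = G D
  | e :: es, D, m => ∃ g : 𝓞 K → ℝ, (∀ π, Primary π → ¬ π ∣ D → IMK G es (D * π ^ e) (g π)) ∧
      Tendsto (fun X : ℕ => (∑ᶠ π ∈ {π : 𝓞 K | Primary π ∧ Algebra.norm ℤ π ≤ X}, g π) /
        ({π : 𝓞 K | Primary π ∧ Algebra.norm ℤ π ≤ X}.ncard : ℝ)) atTop (𝓝 m)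

variable {j : Ei ≃+* 𝓞 K}

theorem img_set (hj : ∀ z : Ei, Algebra.norm ℤ (j z) = nr z) (X : ℕ) :
    {π : 𝓞 K | Primary π ∧ Algebra.norm ℤ π ≤ X} = j '' {π : Ei | Pq π ∧ nr π ≤ X} := by
  ext π
  constructor
  · rintro ⟨a, b⟩
    obtain ⟨z, rfl⟩ := j.surjective π
    exact ⟨z, ⟨primary_j.1 a, by rw [← hj]; exact b⟩, rfl⟩
  · rintro ⟨z, ⟨a, b⟩, rfl⟩
    exact ⟨primary_j.2 a, by rw [hj]; exact b⟩

theorem trk (hj : ∀ z : Ei, Algebra.norm ℤ (j z) = nr z) (G : 𝓞 K → ℝ) (es : List ℕ) :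
    ∀ (D : Ei) (m : ℝ), IM (fun z => G (j z)) es D m → IMK G es (j D) m := by
  induction es with
  | nil => exact fun D m h => h
  | cons e es ih =>
    rintro D m ⟨g, h1, h2⟩
    refine ⟨fun π => g (j.symm π), fun π hπ hd => ?_, ?_⟩
    · obtain ⟨z, rfl⟩ := j.surjective π
      have h3 := ih _ _ (h1 z (primary_j.1 hπ) (fun h => hd (dvd_j.2 h)))
      rw [map_mul, map_pow] at h3
      have h4 : g (j.symm (j z)) = g z := by rw [RingEquiv.symm_apply_apply]
      simp only [h4]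
      exact h3
    · refine h2.congr fun X => ?_
      rw [img_set hj X]
      congr 1
      · rw [finsum_mem_image j.injective.injOn]
        refine finsum_mem_congr rfl fun z _ => ?_
        rw [RingEquiv.symm_apply_apply]
      · rw [Set.ncard_image_of_injective _ j.injective]
        unfold NT
        simp only [and_true]

/-- the Selmer group of `√-3` -/
theorem sel_eq [IsCyclotomicExtension {3} ℚ K] (hS : S_SOL)
    (hj : ∀ z : Ei, Algebra.norm ℤ (j z) = nr z) {D : Ei} (hD : Bs D) {e : ℕ}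
    (he : e = 1 ∨ e = 2) {π : Ei} (hπ : Pq π) (hd : ¬ π ∣ D)
    (h9 : ¬ (9 : ℤ) ∣ nr (D * π ^ e) - 1) :
    (SelK (j (D * π ^ e) : K)).ncard = 3 ^ (cork (Mt (Wd D) (gd D e fun p => cs p π)) + 1) := by
  have hdt := dt_mul hD he hπ hd
  have h1 := (Pool.Agent.R419.KL.main_pi (K := K) Pool.Agent.Y696.CTK.parts hdt (by
    rw [pD_mul hD he]; exact h9) j).1
  rw [pD_mul hD he] at h1
  rw [h1]
  exact hS D hD e he π hπ hd

theorem sel3_iff [IsCyclotomicExtension {3} ℚ K] {ω : 𝓞 K} (hω : ω ^ 2 + ω + 1 = 0) {D : 𝓞 K}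
    (hD : ClsKC D) : Nat.card (Sel3 (D : K)) = 3 ↔ (SelK (D : K)).ncard = 3 ^ (0 + 1) := by
  have hω' : (ω : K) ^ 2 + (ω : K) + 1 = 0 := by
    have := congrArg (fun z : 𝓞 K => (z : K)) hω
    simpa using this
  obtain ⟨r, s, h1, h2, h3, h4, -⟩ := (Pool.Agent.R419.KL.finalSel3 K (ω : K) hω').1 D hD
  rw [h1, h2]
  constructor
  · intro h
    have h5 : s + 1 = 1 := Nat.pow_right_injective (show 2 ≤ 3 by norm_num) (by
      simpa using h)
    have : r = 0 := by omega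
    rw [this]
  · intro h
    have h5 : r + 1 = 0 + 1 := Nat.pow_right_injective (show 2 ≤ 3 by norm_num) h
    have : s = 0 := by omega
    rw [this]
    norm_num

end Pool.Agent.H20S3
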